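import Pool.Agent.MP_244be3_lc.Normal

set_option autoImplicit false

/-!
Reduction of networks with real inputs to linear combinations of Boolean threshold functions.
-/

namespace Pool.Agent.MP_244be3_lc

open Finset Filter Topology

/-- `F` is a constant plus a real linear combination of `q` linear threshold functions of the
bits `u`. -/
def SumThr {n : ℕ} (F : (Fin n → Bool) → ℝ) (q : ℕ) : Prop :=
  ∃ (θ : ℕ → Fin n → ℝ) (b a : ℕ → ℝ) (a0 : ℝ), ∀ u : Fin n → Bool,
    F u = a0 + ∑ j ∈ range q, a j * (if 0 < (∑ i, θ j i * bit (u i)) + b j then 1 else 0)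

theorem pt_pos {n : ℕ} {ε : ℝ} (hε : 0 < ε) (s : Fin n → Bool) (i : Fin n) :
    0 < pt ε s i ↔ s i = true := by
  unfold pt
  have h1 : 0 < ε ^ ((i : ℕ) + 1) := pow_pos hε _
  cases hb : s i
  · simp [sg, h1.le]
  · simp [sg, h1]

theorem decide_pt {n : ℕ} {ε : ℝ} (hε : 0 < ε) (s : Fin n → Bool) :
    (fun i => decide (0 < pt ε s i)) = s := by
  funext i
  rw [Bool.eq_iff_iff, decide_eq_true_iff]
  exact pt_pos hε s i

theorem eval_zero {n : ℕ} (N : Net n) (hd : N.depth = 0) (x : Fin n → ℝ) :
    N.eval x = N.a0 + ∑ j : Fin n, N.a j * x j := by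
  rw [Net.eval, hd, N.width_zero, Finset.sum_range]
  congr 1
  apply Finset.sum_congr rfl
  intro j _
  rw [Net.act, dif_pos j.2]

/-- A network with at most two hidden layers that computes a function of the sign bits gives a
linear combination of Boolean threshold functions with at most as many terms as neurons. -/
theorem sumThr_of_net {n : ℕ} (N : Net n) (hd : N.depth ≤ 2) (F : (Fin n → Bool) → ℝ)
    (hN : ∀ x, N.eval x = F (fun i => decide (0 < x i))) : ∃ q ≤ N.size, SumThr F q := by
  rcases Nat.eq_zero_or_pos n with hn | hn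
  · subst hn
    refine ⟨0, Nat.zero_le _, fun _ _ => 0, fun _ => 0, fun _ => 0, F Fin.elim0, ?_⟩
    intro u
    rw [Subsingleton.elim u Fin.elim0]
    simp
  have hd' : N.depth = 0 ∨ N.depth = 1 ∨ N.depth = 2 := by omega
  rcases hd' with h0 | h1 | h2
  · -- depth zero: the function is constant
    refine ⟨0, Nat.zero_le _, fun _ _ => 0, fun _ => 0, fun _ => 0, N.a0, ?_⟩
    intro u
    have e1 := hN (pt 1 u)
    have e2 := hN (fun i => 2 * pt 1 u i)
    rw [decide_pt one_pos] at e1
    have e3 : (fun i => decide (0 < 2 * pt 1 u i)) = u := by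
      rw [← decide_pt one_pos u]
      funext i
      simp only [mul_pos_iff_of_pos_left (two_pos : (0 : ℝ) < 2)]
      rw [decide_pt one_pos]
    rw [e3] at e2
    rw [eval_zero N h0] at e1 e2
    have e4 : ∑ j : Fin n, N.a j * (2 * pt 1 u j) = 2 * ∑ j : Fin n, N.a j * pt 1 u j := by
      rw [Finset.mul_sum]
      exact Finset.sum_congr rfl fun j _ => by ring
    rw [e4] at e2
    rw [Finset.range_zero, Finset.sum_empty]
    linarith
  · -- depth one
    obtain ⟨ε, hε, l, p, q, hq, h⟩ := first_layer hn N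
    have hsize : N.size = N.width 1 := by
      unfold Net.size
      rw [h1]
      simp
    refine ⟨N.width 1, hsize.ge, fun j i => if l j = i then q j else 0,
      fun j => p j - 1 / 2, N.a, N.a0, ?_⟩
    intro u
    rw [← decide_pt hε u, ← hN, Net.eval, h1, decide_pt hε u]
    congr 1
    apply Finset.sum_congr rfl
    intro j hj
    congr 1
    have h3 := h u j (mem_range.1 hj)
    have h4 : ∑ i : Fin n, (if l j = i then (q j : ℝ) else 0) * bit (u i) = q j * bit (u (l j)) := by
      rw [Finset.sum_eq_single (l j)]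
      · rw [if_pos rfl]
      · intro i _ hi
        rw [if_neg (Ne.symm hi), zero_mul]
      · intro hh; simp at hh
    rw [h4]
    have h2 : N.act (pt ε u) 1 j = 0 ∨ N.act (pt ε u) 1 j = 1 := by
      rw [act_one]
      split_ifs
      · right; rfl
      · left; rfl
    rcases h2 with h2 | h2
    · rw [h2] at h3 ⊢
      rw [if_neg]
      linarith
    · rw [h2] at h3 ⊢
      rw [if_pos]
      linarith
  · -- depth two
    obtain ⟨ε, hε, l, p, q, hq, h⟩ := first_layer hn N
    have hsize : N.size = N.width 1 + N.width 2 := by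
      unfold Net.size
      rw [h2]
      have : Icc 1 2 = ({1, 2} : Finset ℕ) := by decide
      rw [this, Finset.sum_insert (by decide), Finset.sum_singleton]
    refine ⟨N.width 2, by omega,
      fun j t => ∑ i ∈ range (N.width 1), if l i = t then N.W 1 j i * q i else 0,
      fun j => (∑ i ∈ range (N.width 1), N.W 1 j i * p i) + N.B 1 j, N.a, N.a0, ?_⟩
    intro u
    rw [← decide_pt hε u, ← hN, Net.eval, h2, decide_pt hε u]
    congr 1
    apply Finset.sum_congr rfl
    intro j _
    congr 1
    have e : (∑ i ∈ range (N.width 1), N.W 1 j i * N.act (pt ε u) 1 i) + N.B 1 j =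
        (∑ t : Fin n, (∑ i ∈ range (N.width 1), if l i = t then N.W 1 j i * (q i : ℝ) else 0) *
          bit (u t)) + ((∑ i ∈ range (N.width 1), N.W 1 j i * p i) + N.B 1 j) := by
      rw [← add_assoc]
      congr 1
      have e1 : (∑ t : Fin n, (∑ i ∈ range (N.width 1), if l i = t then N.W 1 j i * (q i : ℝ) else 0) *
          bit (u t)) = ∑ i ∈ range (N.width 1), N.W 1 j i * (q i * bit (u (l i))) := by
        simp_rw [Finset.sum_mul]
        rw [Finset.sum_comm]
        apply Finset.sum_congr rfl
        intro i _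
        rw [Finset.sum_eq_single (l i)]
        · rw [if_pos rfl]; ring
        · intro t _ ht
          rw [if_neg (Ne.symm ht), zero_mul]
        · intro hh; simp at hh
      rw [e1, ← Finset.sum_add_distrib]
      apply Finset.sum_congr rfl
      intro i hi
      rw [h u i (mem_range.1 hi)]
      ring
    rw [act_succ, e]

/-- Prepending a layer: `M` on top of the first layer of affine thresholds `W0`, `B0`. -/
def prepend {d n : ℕ} (W0 : ℕ → ℕ → ℝ) (B0 : ℕ → ℝ) (M : Net n) : Net d where
  depth := M.depth + 1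
  width := fun i => if i = 0 then d else M.width (i - 1)
  W := fun i => if i = 0 then W0 else M.W (i - 1)
  B := fun i => if i = 0 then B0 else M.B (i - 1)
  a := M.a
  a0 := M.a0
  width_zero := by simp

theorem prepend_act {d n : ℕ} (W0 : ℕ → ℕ → ℝ) (B0 : ℕ → ℝ) (M : Net n) (x : Fin d → ℝ)
    (y : Fin n → ℝ)
    (hy : ∀ j : Fin n, y j = if 0 < (∑ l : Fin d, W0 j l * x l) + B0 j then 1 else 0) :
    ∀ i, ∀ j < M.width i, (prepend (d := d) W0 B0 M).act x (i + 1) j = M.act y i j := by
  intro i
  induction i with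
  | zero =>
    intro j hj
    rw [M.width_zero] at hj
    rw [act_one, Net.act, dif_pos hj, hy]
    simp [prepend]
  | succ i ih =>
    intro j _
    rw [act_succ, act_succ]
    have hw : (prepend (d := d) W0 B0 M).width (i + 1) = M.width i := by simp [prepend]
    have hW : (prepend (d := d) W0 B0 M).W (i + 1) = M.W i := by simp [prepend]
    have hB : (prepend (d := d) W0 B0 M).B (i + 1) = M.B i := by simp [prepend]
    rw [hw, hW, hB]
    rw [Finset.sum_congr rfl fun l hl => by rw [ih l (mem_range.1 hl)]]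

theorem prepend_eval {d n : ℕ} (W0 : ℕ → ℕ → ℝ) (B0 : ℕ → ℝ) (M : Net n) (x : Fin d → ℝ)
    (y : Fin n → ℝ)
    (hy : ∀ j : Fin n, y j = if 0 < (∑ l : Fin d, W0 j l * x l) + B0 j then 1 else 0) :
    (prepend (d := d) W0 B0 M).eval x = M.eval y := by
  unfold Net.eval
  have hd : (prepend (d := d) W0 B0 M).depth = M.depth + 1 := rfl
  have hw : (prepend (d := d) W0 B0 M).width (M.depth + 1) = M.width M.depth := by simp [prepend]
  rw [hd, hw]
  change M.a0 + _ = _
  congr 1
  apply Finset.sum_congr rfl
  intro j hj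
  rw [prepend_act W0 B0 M x y hy _ _ (mem_range.1 hj)]
  rfl

theorem sum_Icc_one (f : ℕ → ℕ) (k : ℕ) : ∑ i ∈ Icc 1 k, f i = ∑ i ∈ range k, f (i + 1) := by
  induction k with
  | zero => simp
  | succ k ih => rw [Finset.sum_Icc_succ_top (by omega), ih, Finset.sum_range_succ]

theorem prepend_size {d n : ℕ} (W0 : ℕ → ℕ → ℝ) (B0 : ℕ → ℝ) (M : Net n) :
    (prepend (d := d) W0 B0 M).size = n + M.size := by
  unfold Net.size
  have hd : (prepend (d := d) W0 B0 M).depth = M.depth + 1 := rfl
  rw [hd, sum_Icc_one, sum_Icc_one, Finset.sum_range_succ']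
  simp only [prepend]
  simp [M.width_zero, add_comm]

/-- Removing the first layer. -/
def tail {d : ℕ} (N : Net d) : Net (N.width 1) where
  depth := N.depth - 1
  width := fun i => N.width (i + 1)
  W := fun i => N.W (i + 1)
  B := fun i => N.B (i + 1)
  a := N.a
  a0 := N.a0
  width_zero := rfl

theorem tail_act {d : ℕ} (N : Net d) (x : Fin d → ℝ) :
    ∀ i, ∀ j < N.width (i + 1),
      (tail N).act (fun l : Fin (N.width 1) => N.act x 1 l) i j = N.act x (i + 1) j := by
  intro i
  induction i with
  | zero =>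
    intro j hj
    rw [Net.act, dif_pos hj]
  | succ i ih =>
    intro j _
    rw [act_succ, act_succ]
    change (if 0 < (∑ l ∈ range (N.width (i + 1)), N.W (i + 1) j l *
      (tail N).act (fun l : Fin (N.width 1) => N.act x 1 l) i l) + N.B (i + 1) j then (1 : ℝ) else 0) = _
    rw [Finset.sum_congr rfl fun l hl => by rw [ih l (mem_range.1 hl)]]

theorem tail_eval {d : ℕ} (N : Net d) (hN : 1 ≤ N.depth) (x : Fin d → ℝ) :
    (tail N).eval (fun l : Fin (N.width 1) => N.act x 1 l) = N.eval x := by
  unfold Net.eval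
  have hd : (tail N).depth = N.depth - 1 := rfl
  have e : N.depth - 1 + 1 = N.depth := by omega
  have hw : (tail N).width (N.depth - 1) = N.width N.depth := by
    change N.width (N.depth - 1 + 1) = _
    rw [e]
  rw [hd, hw]
  change N.a0 + _ = _
  congr 1
  apply Finset.sum_congr rfl
  intro j hj
  rw [tail_act N x (N.depth - 1) j (by rw [e]; exact mem_range.1 hj), e]
  rfl

theorem tail_size {d : ℕ} (N : Net d) (hN : 1 ≤ N.depth) :
    N.width 1 + (tail N).size = N.size := by
  unfold Net.size
  have hd : (tail N).depth = N.depth - 1 := rfl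
  obtain ⟨e, he⟩ : ∃ e, N.depth = e + 1 := ⟨N.depth - 1, by omega⟩
  rw [hd, sum_Icc_one, sum_Icc_one, he, Finset.sum_range_succ', add_comm]
  rfl

/-- The depth one network of a linear combination of threshold functions. -/
def thrNet {n : ℕ} (q : ℕ) (θ : ℕ → Fin n → ℝ) (b a : ℕ → ℝ) (a0 : ℝ) : Net n where
  depth := 1
  width := fun i => if i = 0 then n else q
  W := fun _ j l => if h : l < n then θ j ⟨l, h⟩ else 0
  B := fun _ j => b j
  a := a
  a0 := a0
  width_zero := by simp

theorem thrNet_eval {n : ℕ} (q : ℕ) (θ : ℕ → Fin n → ℝ) (b a : ℕ → ℝ) (a0 : ℝ) (x : Fin n → ℝ) :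
    (thrNet q θ b a a0).eval x =
      a0 + ∑ j ∈ range q, a j * (if 0 < (∑ i, θ j i * x i) + b j then 1 else 0) := by
  unfold Net.eval
  have hd : (thrNet q θ b a a0).depth = 1 := rfl
  have hw : (thrNet q θ b a a0).width 1 = q := by simp [thrNet]
  rw [hd, hw]
  change a0 + _ = _
  congr 1
  apply Finset.sum_congr rfl
  intro j _
  rw [act_one]
  have : ∀ l : Fin n, (thrNet q θ b a a0).W 0 j l = θ j l := by
    intro l
    simp [thrNet]
  simp_rw [this]
  rfl

theorem thrNet_size {n : ℕ} (q : ℕ) (θ : ℕ → Fin n → ℝ) (b a : ℕ → ℝ) (a0 : ℝ) :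
    (thrNet q θ b a a0).size = q := by
  unfold Net.size
  have hd : (thrNet q θ b a a0).depth = 1 := rfl
  rw [hd]
  simp [thrNet]

end Pool.Agent.MP_244be3_lc
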