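import Mathlib

set_option autoImplicit false

/-!
Bounded solutions of solvable linear systems with integer coefficients (Cramer's rule).
-/

namespace Pool.Agent.MP_244be3_lc

open Finset Matrix

theorem abs_det_le {t : ℕ} (A : Matrix (Fin t) (Fin t) ℝ) (B : ℝ) (h : ∀ i j, |A i j| ≤ B) :
    |A.det| ≤ t.factorial * B ^ t := by
  have := Matrix.det_le (abv := AbsoluteValue.abs) (A := A) (x := B) h
  simpa using this

theorem small_solution {X : Type} {p : ℕ} (Φ : Matrix X (Fin p) ℤ) (B : ℕ) (hB : 1 ≤ B)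
    (hΦ : ∀ x i, |Φ x i| ≤ B) (f : X → ℤ) (hf : ∀ x, |f x| ≤ 1) (v : Fin p → ℝ)
    (hv : ∀ x, (f x : ℝ) = ∑ i, (Φ x i : ℝ) * v i) :
    ∃ v' : Fin p → ℝ, (∀ i, |v' i| ≤ p * (p.factorial * (B : ℝ) ^ p)) ∧
      ∀ x, (f x : ℝ) = ∑ i, (Φ x i : ℝ) * v' i := by
  classical
  let P : ℕ → Prop := fun t => ∃ (R : Fin t → X) (C : Fin t → Fin p), (Φ.submatrix R C).det ≠ 0
  have hP0 : P 0 := ⟨Fin.elim0, Fin.elim0, by simp⟩
  have hinj : ∀ t (R : Fin t → X) (C : Fin t → Fin p), (Φ.submatrix R C).det ≠ 0 →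
      Function.Injective C := by
    intro t R C h i j hij
    by_contra hne
    exact h (Matrix.det_zero_of_column_eq hne fun k => by simp [hij])
  have hPle : ∀ t, P t → t ≤ p := by
    rintro t ⟨R, C, h⟩
    have := Fintype.card_le_of_injective C (hinj t R C h)
    simpa using this
  set t := Nat.findGreatest P p with ht
  have htp : t ≤ p := Nat.findGreatest_le p
  obtain ⟨R, C, hdet⟩ : P t := Nat.findGreatest_spec (Nat.zero_le p) hP0
  have hnot : ¬ P (t + 1) := by
    intro h
    have := hPle _ h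
    exact Nat.findGreatest_is_greatest (P := P) (Nat.lt_succ_self t) this h
  have hCinj := hinj t R C hdet
  -- the real matrix
  set A : Matrix (Fin t) (Fin t) ℝ := (Φ.submatrix R C).map (Int.castRingHom ℝ) with hA
  have hAdet : A.det = ((Φ.submatrix R C).det : ℝ) := by
    rw [hA, ← RingHom.mapMatrix_apply, ← RingHom.map_det]
    simp
  have hAdet0 : A.det ≠ 0 := by
    rw [hAdet]
    exact_mod_cast hdet
  have hAdet1 : 1 ≤ |A.det| := by
    rw [hAdet]
    have : 1 ≤ |(Φ.submatrix R C).det| := Int.one_le_abs hdet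
    exact_mod_cast this
  have hAunit : IsUnit A.det := isUnit_iff_ne_zero.2 hAdet0
  -- bordered minors vanish
  have key : ∀ x i, (Φ x i : ℝ) =
      ∑ c, (Φ x (C c) : ℝ) * (A⁻¹ *ᵥ fun r => (Φ (R r) i : ℝ)) c := by
    intro x i
    have hz : (Φ.submatrix (Sum.elim R (fun _ : Fin 1 => x)) (Sum.elim C (fun _ : Fin 1 => i))).det
        = 0 := by
      by_contra hne
      apply hnot
      refine ⟨Sum.elim R (fun _ : Fin 1 => x) ∘ finSumFinEquiv.symm,
        Sum.elim C (fun _ : Fin 1 => i) ∘ finSumFinEquiv.symm, ?_⟩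
      rw [← Matrix.submatrix_submatrix, Matrix.det_submatrix_equiv_self]
      exact hne
    let b : Matrix (Fin t) (Fin 1) ℝ := fun r _ => (Φ (R r) i : ℝ)
    let c : Matrix (Fin 1) (Fin t) ℝ := fun _ k => (Φ x (C k) : ℝ)
    let d : Matrix (Fin 1) (Fin 1) ℝ := fun _ _ => (Φ x i : ℝ)
    have hblocks : (Φ.submatrix (Sum.elim R (fun _ : Fin 1 => x))
        (Sum.elim C (fun _ : Fin 1 => i))).map (Int.castRingHom ℝ) = Matrix.fromBlocks A b c d := by
      ext r s
      rcases r with r | r <;> rcases s with s | s <;> rfl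
    have hz2 : (Matrix.fromBlocks A b c d).det = 0 := by
      rw [← hblocks, ← RingHom.mapMatrix_apply, ← RingHom.map_det, hz, map_zero]
    have : Invertible A := Matrix.invertibleOfIsUnitDet A hAunit
    rw [Matrix.det_fromBlocks₁₁] at hz2
    have hz3 := (mul_eq_zero.1 hz2).resolve_left hAdet0
    rw [Matrix.det_fin_one, Matrix.invOf_eq_nonsing_inv, Matrix.sub_apply] at hz3
    have e1 : (c * A⁻¹ * b) 0 0 = ∑ k, (Φ x (C k) : ℝ) * (A⁻¹ *ᵥ fun r => (Φ (R r) i : ℝ)) k := by
      rw [Matrix.mul_assoc, Matrix.mul_apply]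
      rfl
    rw [e1] at hz3
    change (Φ x i : ℝ) - _ = 0 at hz3
    linarith
  set w : Fin t → ℝ := A⁻¹ *ᵥ fun r => (f (R r) : ℝ) with hw
  have hwf : ∀ x, (f x : ℝ) = ∑ c, (Φ x (C c) : ℝ) * w c := by
    intro x
    rw [hv x]
    have e1 : ∀ i, (Φ x i : ℝ) * v i =
        ∑ c, (Φ x (C c) : ℝ) * ((A⁻¹ *ᵥ fun r => (Φ (R r) i : ℝ)) c * v i) := by
      intro i
      rw [key x i, Finset.sum_mul]
      exact Finset.sum_congr rfl fun c _ => by ring
    simp_rw [e1]
    rw [Finset.sum_comm]
    apply Finset.sum_congr rfl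
    intro c _
    rw [← Finset.mul_sum]
    congr 1
    rw [hw]
    simp only [Matrix.mulVec, dotProduct]
    simp_rw [Finset.sum_mul]
    rw [Finset.sum_comm]
    apply Finset.sum_congr rfl
    intro r _
    rw [hv (R r), Finset.mul_sum]
    exact Finset.sum_congr rfl fun i _ => by ring
  have hB' : (1 : ℝ) ≤ B := by exact_mod_cast hB
  have hAle : ∀ r c, |A r c| ≤ B := by
    intro r c
    have := hΦ (R r) (C c)
    change |((Φ (R r) (C c) : ℤ) : ℝ)| ≤ B
    exact_mod_cast this
  have hinv : ∀ c r, |A⁻¹ c r| ≤ t.factorial * (B : ℝ) ^ t := by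
    intro c r
    rw [Matrix.inv_def, Matrix.smul_apply, Ring.inverse_eq_inv', smul_eq_mul, abs_mul, abs_inv]
    have h1 : |A.adjugate c r| ≤ t.factorial * (B : ℝ) ^ t := by
      rw [Matrix.adjugate_apply]
      apply abs_det_le
      intro i j
      rw [Matrix.updateRow_apply]
      split_ifs
      · by_cases hjc : j = c
        · subst hjc
          simp [hB']
        · rw [Pi.single_apply, if_neg hjc, abs_zero]
          linarith
      · exact hAle i j
    have h2 : |A.det|⁻¹ ≤ 1 := inv_le_one_of_one_le₀ hAdet1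
    calc |A.det|⁻¹ * |A.adjugate c r| ≤ 1 * |A.adjugate c r| := by gcongr
      _ ≤ _ := by rw [one_mul]; exact h1
  have hwle : ∀ c, |w c| ≤ p * (p.factorial * (B : ℝ) ^ p) := by
    intro c
    rw [hw]
    simp only [Matrix.mulVec, dotProduct]
    calc |∑ r, A⁻¹ c r * (f (R r) : ℝ)| ≤ ∑ r, |A⁻¹ c r * (f (R r) : ℝ)| :=
          Finset.abs_sum_le_sum_abs _ _
      _ ≤ ∑ _r : Fin t, t.factorial * (B : ℝ) ^ t := by
          apply Finset.sum_le_sum
          intro r _
          rw [abs_mul]
          have h1 : |(f (R r) : ℝ)| ≤ 1 := by exact_mod_cast hf (R r)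
          calc |A⁻¹ c r| * |(f (R r) : ℝ)| ≤ (t.factorial * (B : ℝ) ^ t) * 1 := by
                gcongr
                exact hinv c r
            _ = _ := mul_one _
      _ = t * (t.factorial * (B : ℝ) ^ t) := by simp
      _ ≤ p * (p.factorial * (B : ℝ) ^ p) := by
          have h1 : (t : ℝ) ≤ p := by exact_mod_cast htp
          have h2 : (t.factorial : ℝ) ≤ p.factorial := by
            exact_mod_cast Nat.factorial_le htp
          have h3 : (B : ℝ) ^ t ≤ (B : ℝ) ^ p := pow_le_pow_right₀ hB' htp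
          gcongr
  refine ⟨fun i => ∑ c, if C c = i then w c else 0, ?_, ?_⟩
  · intro i
    beta_reduce
    by_cases hi : ∃ c, C c = i
    · obtain ⟨c, rfl⟩ := hi
      have : (∑ c', if C c' = C c then w c' else 0) = w c := by
        rw [Finset.sum_eq_single c]
        · rw [if_pos rfl]
        · intro c' _ hc'
          rw [if_neg fun h => hc' (hCinj h)]
        · intro h; simp at h
      rw [this]
      exact hwle c
    · push Not at hi
      have : (∑ c', if C c' = i then w c' else 0) = 0 :=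
        Finset.sum_eq_zero fun c _ => if_neg (hi c)
      rw [this, abs_zero]
      positivity
  · intro x
    rw [hwf x]
    simp_rw [Finset.mul_sum]
    rw [Finset.sum_comm]
    apply Finset.sum_congr rfl
    intro c _
    rw [Finset.sum_eq_single (C c)]
    · rw [if_pos rfl]
    · intro i _ hi
      rw [if_neg (Ne.symm hi), mul_zero]
    · intro h; simp at h

end Pool.Agent.MP_244be3_lc
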