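import Pool.Agent.MP_244be3_lc.Normal
import Pool.Agent.MP_244be3_lc.Small

set_option autoImplicit false

/-!
Lower bounds for linear combinations of thresholds that represent the inner product.
-/

namespace Pool.Agent.MP_244be3_lc

open Finset

theorem sum_chi_all {k : ℕ} : ∑ v : Fin k → Bool, ∑ u : Fin k → Bool, chi u v = 2 ^ k := by
  have h : ∀ u : Fin k → Bool, ∑ v : Fin k → Bool, chi u v =
      if u = (fun _ => false) then (2 : ℝ) ^ k else 0 := by
    intro u
    have h1 := chi_orth u (fun _ => false)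
    have h2 : ∀ v : Fin k → Bool, chi (fun _ => false) v = 1 := by
      intro v
      unfold chi
      simp
    simp_rw [h2, mul_one] at h1
    exact h1
  rw [Finset.sum_comm]
  simp_rw [h]
  rw [Finset.sum_ite_eq']
  simp

theorem chi_sq {k : ℕ} (u v : Fin k → Bool) : chi u v * chi u v = 1 := by
  have h := abs_chi u v
  have : chi u v * chi u v = |chi u v| * |chi u v| := (abs_mul_abs_self _).symm
  rw [this, h, one_mul]

/-- Lower bound for the output weights. -/
theorem weight_bound {k m : ℕ} (hk : 0 < k) {a : ℕ → ℝ} {r L : ℕ} {small : Prop}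
    (c : Comb k m a r L ip small) {A : ℝ} (hAeq : ∑ j ∈ range m, |a j| ≤ A) :
    (2 : ℝ) ^ k ≤ (4 * (k + 2) * A) ^ 2 := by
  have hA : 0 ≤ A := le_trans (Finset.sum_nonneg fun _ _ => abs_nonneg _) hAeq
  -- the constant term
  have ha0 : |c.a0| ≤ A := by
    have h := c.eq (fun _ => false) (fun _ => false)
    have h0 : ip (fun _ : Fin k => false) (fun _ => false) = 0 := by
      unfold ip; simp
    rw [h0] at h
    have h1 : c.a0 = -∑ j ∈ range m, a j *
        (if 0 < c.U j (fun _ => false) + c.V j (fun _ => false) then 1 else 0) := by linarith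
    rw [h1, abs_neg]
    refine le_trans ?_ hAeq
    refine (Finset.abs_sum_le_sum_abs _ _).trans (Finset.sum_le_sum fun j _ => ?_)
    rw [abs_mul]
    split_ifs <;> simp
  -- correlation with chi
  have hmain : ∑ v : Fin k → Bool, ∑ u : Fin k → Bool, ip u v * chi u v =
      c.a0 * 2 ^ k + ∑ j ∈ range m, a j *
        ∑ v, ∑ u, (if 0 < c.U j u + c.V j v then chi u v else 0) := by
    have h1 : ∀ u v : Fin k → Bool, ip u v * chi u v = c.a0 * chi u v +
        ∑ j ∈ range m, a j * (if 0 < c.U j u + c.V j v then chi u v else 0) := by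
      intro u v
      rw [c.eq u v, add_mul, Finset.sum_mul]
      congr 1
      apply Finset.sum_congr rfl
      intro j _
      split_ifs <;> ring
    simp_rw [h1, Finset.sum_add_distrib]
    congr 1
    · simp_rw [← Finset.mul_sum]
      rw [sum_chi_all]
    · have h2 : ∀ v : Fin k → Bool, ∑ u : Fin k → Bool, ∑ j ∈ range m,
          a j * (if 0 < c.U j u + c.V j v then chi u v else 0) =
          ∑ j ∈ range m, a j * ∑ u, (if 0 < c.U j u + c.V j v then chi u v else 0) := by
        intro v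
        rw [Finset.sum_comm]
        simp_rw [Finset.mul_sum]
      simp_rw [h2]
      rw [Finset.sum_comm]
      simp_rw [Finset.mul_sum]
  have hleft : ∑ v : Fin k → Bool, ∑ u : Fin k → Bool, ip u v * chi u v =
      ((2 : ℝ) ^ k - 2 ^ k * 2 ^ k) / 2 := by
    have h1 : ∀ u v : Fin k → Bool, ip u v * chi u v = (chi u v - 1) / 2 := by
      intro u v
      rw [ip_eq]
      have := chi_sq u v
      linarith
    simp_rw [h1, ← Finset.sum_div, Finset.sum_sub_distrib]
    rw [sum_chi_all]
    simp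
  rw [hleft] at hmain
  set q : ℝ := √((2 : ℝ) ^ k) with hq
  have hN : (0 : ℝ) ≤ 2 ^ k := by positivity
  have hq2 : q * q = 2 ^ k := Real.mul_self_sqrt hN
  have hq0 : 0 ≤ q := Real.sqrt_nonneg _
  have h2k : (2 : ℝ) ≤ 2 ^ k := by
    calc (2 : ℝ) = 2 ^ 1 := by norm_num
      _ ≤ 2 ^ k := pow_le_pow_right₀ (by norm_num) hk
  have hq1 : 1 ≤ q := by nlinarith
  have hsqrt : √((2 : ℝ) ^ k * 2 ^ k * 2 ^ k) = q * q * q := by
    rw [Real.sqrt_mul (by positivity), Real.sqrt_mul hN]
  have hD : |∑ j ∈ range m, a j *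
      ∑ v, ∑ u, (if 0 < c.U j u + c.V j v then chi u v else 0)| ≤ A * ((k + 1) * (q * q * q)) := by
    have hS : ∑ j ∈ range m, |a j| * ((k + 1) * (q * q * q)) ≤ A * ((k + 1) * (q * q * q)) := by
      rw [← Finset.sum_mul]
      gcongr
    refine le_trans ?_ hS
    refine (Finset.abs_sum_le_sum_abs _ _).trans (Finset.sum_le_sum fun j _ => ?_)
    rw [abs_mul, ← hsqrt]
    exact mul_le_mul_of_nonneg_left (disc _ _) (abs_nonneg _)
  have hle : ((2 : ℝ) ^ k * 2 ^ k - 2 ^ k) / 2 ≤ A * 2 ^ k + A * ((k + 1) * (q * q * q)) := by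
    have h1 : |c.a0 * 2 ^ k| ≤ A * 2 ^ k := by
      rw [abs_mul, abs_of_nonneg hN]
      gcongr
    have h2 := neg_abs_le (c.a0 * 2 ^ k)
    have h3 := neg_abs_le (∑ j ∈ range m, a j *
      ∑ v, ∑ u, (if 0 < c.U j u + c.V j v then chi u v else 0))
    linarith
  rw [← hq2] at hle h2k ⊢
  -- q^4 - q^2 ≤ 2A (q^2 + (k+1) q^3)
  have hqq : 0 < q * q := by positivity
  have h5 : (q * q - 1) / 2 ≤ A * (1 + (k + 1) * q) := by
    have : q * q * ((q * q - 1) / 2) ≤ q * q * (A * (1 + (k + 1) * q)) := by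
      linarith
    exact le_of_mul_le_mul_left this hqq
  have h6 : q ≤ 4 * (k + 2) * A := by
    have h7 : q * q / 4 ≤ A * (k + 2) * q := by
      have h8 : A * (1 + (k + 1) * q) ≤ A * ((k + 2) * q) := by
        gcongr
        linarith
      linarith
    have h9 : q * q ≤ q * (4 * (k + 2) * A) := by linarith
    exact le_of_mul_le_mul_left h9 (by linarith)
  nlinarith

/-- Lower bound for the number of thresholds when the row parts are quantised. -/
theorem rank_bound {k m : ℕ} {a : ℕ → ℝ} {r L : ℕ} {small : Prop}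
    (c : Comb k m a r L ip small) (hs : small) : 2 ^ k ≤ 1 + m * (2 * L + 1) ^ r := by
  classical
  let Z : Finset ℤ := Finset.Icc (-(L : ℤ)) L
  let ι : Type := Option (Fin m × (Fin r → Z))
  have hint := c.int hs
  choose! t e he he' using hint
  let P : Matrix (Fin k → Bool) ι ℝ := fun u o =>
    match o with
    | none => 1
    | some (j, z) => if e j u = (fun i => ((z i : ℤ))) then 1 else 0
  let Q : Matrix ι (Fin k → Bool) ℝ := fun o v =>
    match o with
    | none => 1 - 2 * c.a0
    | some (j, z) => -2 * a j * (if 0 < (∑ i, ((z i : ℤ) : ℝ) * t j i) + c.V j v then 1 else 0)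
  let X : Matrix (Fin k → Bool) (Fin k → Bool) ℝ := fun u v => chi u v
  have hPQ : X = P * Q := by
    ext u v
    rw [Matrix.mul_apply, Fintype.sum_option, Fintype.sum_prod_type]
    have h1 : X u v = 1 - 2 * ip u v := by
      change chi u v = _
      rw [ip_eq]; ring
    rw [h1, c.eq u v]
    have h2 : ∀ j : Fin m, ∑ z : Fin r → Z, P u (some (j, z)) * Q (some (j, z)) v =
        -2 * a j * (if 0 < c.U j u + c.V j v then 1 else 0) := by
      intro j
      have hzmem : ∀ i, e j u i ∈ Z := by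
        intro i
        rw [Finset.mem_Icc]
        exact abs_le.1 (he j j.2 u i)
      rw [Finset.sum_eq_single (fun i => (⟨e j u i, hzmem i⟩ : Z))]
      · change (if e j u = (fun i => e j u i) then (1 : ℝ) else 0) *
          (-2 * a j * (if 0 < (∑ i, ((e j u i : ℤ) : ℝ) * t j i) + c.V j v then 1 else 0)) = _
        rw [if_pos rfl, one_mul, he' j j.2 u]
      · intro y _ hy
        change (if e j u = (fun i => ((y i : ℤ))) then (1 : ℝ) else 0) * _ = 0
        rw [if_neg, zero_mul]
        intro h3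
        apply hy
        funext i
        exact Subtype.ext (congrFun h3 i).symm
      · intro h; simp at h
    simp_rw [h2]
    change _ = 1 * (1 - 2 * c.a0) + _
    rw [Finset.sum_range]
    have h3 : ∑ j : Fin m, -2 * a j * (if 0 < c.U j u + c.V j v then (1 : ℝ) else 0) =
        -2 * ∑ j : Fin m, a j * (if 0 < c.U j u + c.V j v then (1 : ℝ) else 0) := by
      rw [Finset.mul_sum]
      exact Finset.sum_congr rfl fun j _ => by ring
    rw [h3]
    ring
  have hrank : X.rank = 2 ^ k := by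
    have h1 : X * X.transpose = (2 : ℝ) ^ k • (1 : Matrix (Fin k → Bool) (Fin k → Bool) ℝ) := by
      ext u u'
      rw [Matrix.mul_apply]
      change ∑ v, chi u v * chi u' v = _
      rw [chi_orth, Matrix.smul_apply, Matrix.one_apply]
      split_ifs <;> simp
    have hunit : IsUnit X := by
      have h2 : X * ((2 : ℝ) ^ k)⁻¹ • X.transpose = 1 := by
        rw [Matrix.mul_smul, h1, smul_smul, inv_mul_cancel₀ (by positivity), one_smul]
      exact IsUnit.of_mul_eq_one _ h2
    rw [Matrix.rank_of_isUnit X hunit, Fintype.card_fun, Fintype.card_bool, Fintype.card_fin]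
  have hle : X.rank ≤ Fintype.card ι := by
    rw [hPQ]
    exact (Matrix.rank_mul_le_left P Q).trans (Matrix.rank_le_card_width P)
  rw [hrank] at hle
  have hcard : Fintype.card ι = 1 + m * (2 * L + 1) ^ r := by
    change Fintype.card (Option (Fin m × (Fin r → Z))) = _
    rw [Fintype.card_option, Fintype.card_prod, Fintype.card_fin, Fintype.card_fun,
      Fintype.card_fin, Fintype.card_coe, Int.card_Icc]
    have : ((L : ℤ) + 1 - -(L : ℤ)).toNat = 2 * L + 1 := by omega
    rw [this, add_comm]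
  rwa [hcard] at hle

/-- Lower bound for the number of thresholds when the output weights are quantised. -/
theorem quant_bound {k m : ℕ} (hk : 0 < k) {a : ℕ → ℝ} {r' L : ℕ} {small : Prop}
    (c : Comb k m a r' L ip small) {r M : ℕ} (hM : 1 ≤ M) (hq : Quant r M m a) :
    (2 : ℝ) ^ k ≤ (4 * (k + 2) * ((r + 3).factorial * ((m : ℝ) * M) ^ (r + 2))) ^ 2 := by
  rcases Nat.eq_zero_or_pos m with hm | hm
  · subst hm
    have h := weight_bound hk c (A := 0) (by simp)
    have h2 : (0 : ℝ) < 2 ^ k := by positivity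
    nlinarith
  obtain ⟨t, ht⟩ := hq
  choose! n hn hn' using ht
  -- the integer functions
  let S : Fin r → (Fin k → Bool) × (Fin k → Bool) → ℤ := fun i x =>
    ∑ j ∈ range m, n j i * (if 0 < c.U j x.1 + c.V j x.2 then 1 else 0)
  let Φ : Matrix ((Fin k → Bool) × (Fin k → Bool)) (Fin (r + 1)) ℤ := fun x =>
    Fin.cons 1 (fun i => S i x)
  have hB : 1 ≤ m * M := Nat.one_le_iff_ne_zero.2 (by positivity)
  have hS : ∀ i x, |S i x| ≤ ((m * M : ℕ) : ℤ) := by
    intro i x
    calc |S i x| ≤ ∑ j ∈ range m, |n j i * (if 0 < c.U j x.1 + c.V j x.2 then 1 else 0)| :=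
          Finset.abs_sum_le_sum_abs _ _
      _ ≤ ∑ j ∈ range m, (M : ℤ) := by
          apply Finset.sum_le_sum
          intro j hj
          have h1 := hn j (mem_range.1 hj) i
          split_ifs
          · rw [mul_one]; exact h1
          · rw [mul_zero, abs_zero]; positivity
      _ = ((m * M : ℕ) : ℤ) := by simp
  have hΦ : ∀ x i, |Φ x i| ≤ ((m * M : ℕ) : ℤ) := by
    intro x i
    refine Fin.cases ?_ (fun i => ?_) i
    · change |(1 : ℤ)| ≤ _
      rw [abs_one]
      exact_mod_cast hB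
    · exact hS i x
  let f : (Fin k → Bool) × (Fin k → Bool) → ℤ := fun x =>
    if Odd (#{i : Fin k | (x.1 i && x.2 i) = true}) then 1 else 0
  have hf : ∀ x, |f x| ≤ 1 := by
    intro x
    simp only [f]
    split_ifs <;> simp
  have hfip : ∀ x, (f x : ℝ) = ip x.1 x.2 := by
    intro x
    simp only [f, ip]
    split_ifs <;> simp
  have hsumS : ∀ (w : Fin r → ℝ) x, ∑ i, (S i x : ℝ) * w i =
      ∑ j ∈ range m, (∑ i, (n j i : ℝ) * w i) * (if 0 < c.U j x.1 + c.V j x.2 then 1 else 0) := by
    intro w x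
    simp only [S]
    push_cast
    simp_rw [Finset.sum_mul]
    rw [Finset.sum_comm]
    apply Finset.sum_congr rfl
    intro j _
    apply Finset.sum_congr rfl
    intro i _
    split_ifs <;> simp
  have hv : ∀ x, (f x : ℝ) = ∑ i, (Φ x i : ℝ) * (Fin.cons c.a0 t : Fin (r + 1) → ℝ) i := by
    intro x
    rw [hfip, c.eq, Fin.sum_univ_succ]
    simp only [Φ, Fin.cons_zero, Fin.cons_succ]
    rw [hsumS]
    push_cast
    rw [one_mul]
    congr 1
    apply Finset.sum_congr rfl
    intro j hj
    rw [hn' j (mem_range.1 hj)]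
  obtain ⟨v', hv'1, hv'2⟩ := small_solution Φ (m * M) hB hΦ f hf _ hv
  set V : ℝ := ((r + 1 : ℕ) : ℝ) * ((r + 1).factorial * ((m * M : ℕ) : ℝ) ^ (r + 1)) with hV
  have hV0 : 0 ≤ V := by positivity
  -- the new combination
  have hnew : ∀ u v, ip u v = v' 0 + ∑ j ∈ range m, (∑ i, (n j i : ℝ) * v' i.succ) *
      (if 0 < c.U j u + c.V j v then 1 else 0) := by
    intro u v
    have h1 := hv'2 (u, v)
    rw [hfip, Fin.sum_univ_succ] at h1
    simp only [Φ, Fin.cons_zero, Fin.cons_succ] at h1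
    rw [hsumS (fun i => v' i.succ)] at h1
    push_cast at h1
    rw [one_mul] at h1
    exact h1
  let c' : Comb k m (fun j => ∑ i, (n j i : ℝ) * v' i.succ) r' L ip small :=
    { a0 := v' 0, U := c.U, V := c.V, eq := hnew, int := c.int }
  have hA : ∑ j ∈ range m, |∑ i, (n j i : ℝ) * v' (Fin.succ i)| ≤ m * (r * (M * V)) := by
    calc ∑ j ∈ range m, |∑ i, (n j i : ℝ) * v' (Fin.succ i)| ≤ ∑ j ∈ range m, (r * (M * V)) := by
          apply Finset.sum_le_sum
          intro j hj
          calc |∑ i, (n j i : ℝ) * v' (Fin.succ i)| ≤ ∑ i, |(n j i : ℝ) * v' (Fin.succ i)| :=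
                Finset.abs_sum_le_sum_abs _ _
            _ ≤ ∑ _i : Fin r, (M * V) := by
                apply Finset.sum_le_sum
                intro i _
                rw [abs_mul]
                have h1 : |(n j i : ℝ)| ≤ M := by
                  have := hn j (mem_range.1 hj) i
                  exact_mod_cast this
                have h2 := hv'1 i.succ
                gcongr
            _ = r * (M * V) := by simp
      _ = m * (r * (M * V)) := by simp
  have h := weight_bound hk c' hA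
  refine h.trans ?_
  have hle : (m : ℝ) * (r * (M * V)) ≤ (r + 3).factorial * ((m : ℝ) * M) ^ (r + 2) := by
    have e1 : (m : ℝ) * (r * (M * V)) =
        (r * ((r + 1 : ℕ) * (r + 1).factorial)) * ((m : ℝ) * M) ^ (r + 2) := by
      rw [hV]
      push_cast
      ring
    rw [e1]
    have e2 : ((r * ((r + 1 : ℕ) * (r + 1).factorial) : ℕ) : ℝ) ≤ ((r + 3).factorial : ℕ) := by
      have : r * ((r + 1) * (r + 1).factorial) ≤ (r + 3).factorial := by
        rw [Nat.factorial_succ (r + 2), Nat.factorial_succ (r + 1)]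
        calc r * ((r + 1) * (r + 1).factorial) ≤ (r + 2 + 1) * ((r + 1 + 1) * (r + 1).factorial) := by
              gcongr <;> omega
          _ = _ := rfl
      exact_mod_cast this
    push_cast at e2 ⊢
    gcongr
  have h0 : 0 ≤ (m : ℝ) * (r * (M * V)) := by positivity
  gcongr

/-- Comparison of the first bound with the common bound. -/
theorem first_le {k r : ℕ} {x y : ℝ} (hx : 0 ≤ x) (hxy : x ≤ y) (hy : 1 ≤ y) :
    (4 * ((k : ℝ) + 2) * x) ^ 2 ≤ (4 * (k + 2) * ((r + 3).factorial * y ^ (r + 2))) ^ 2 := by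
  have h1 : y ≤ y ^ (r + 2) := le_self_pow₀ hy (by omega)
  have h2 : (1 : ℝ) ≤ (r + 3).factorial := by exact_mod_cast Nat.factorial_pos _
  have h3 : x ≤ (r + 3).factorial * y ^ (r + 2) := by
    calc x ≤ 1 * y ^ (r + 2) := by linarith
      _ ≤ (r + 3).factorial * y ^ (r + 2) := by gcongr
  gcongr

theorem three_pow_le (r : ℕ) : 3 ^ (r + 1) ≤ (r + 3).factorial := by
  induction r with
  | zero => decide
  | succ r ih =>
    have : (r + 1 + 3).factorial = (r + 4) * (r + 3).factorial := by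
      rw [show r + 1 + 3 = (r + 3) + 1 by ring, Nat.factorial_succ]
    rw [this, pow_succ, mul_comm]
    exact Nat.mul_le_mul (by omega) ih

/-- Comparison of the third bound with the common bound. -/
theorem third_le {k r S M : ℕ} (hM : 1 ≤ M) (hS : 1 ≤ S)
    (h : 2 ^ k ≤ 1 + S * (2 * (S * M) + 1) ^ r) :
    (2 : ℝ) ^ k ≤ (4 * (k + 2) * ((r + 3).factorial * ((S : ℝ) * M) ^ (r + 2))) ^ 2 := by
  have hS' : (1 : ℝ) ≤ S := by exact_mod_cast hS
  have hM' : (1 : ℝ) ≤ M := by exact_mod_cast hM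
  have hy : (1 : ℝ) ≤ (S : ℝ) * M := by nlinarith
  have h' : (2 : ℝ) ^ k ≤ 1 + S * (2 * ((S : ℝ) * M) + 1) ^ r := by exact_mod_cast h
  refine h'.trans ?_
  set y : ℝ := (S : ℝ) * M with hydef
  have h1 : (S : ℝ) ≤ y := by nlinarith
  have h2 : (2 * y + 1) ^ r ≤ (3 * y) ^ r := by
    apply pow_le_pow_left₀ (by linarith)
    linarith
  have h3 : (3 : ℝ) ^ (r + 1) ≤ (r + 3).factorial := by exact_mod_cast three_pow_le r
  have h4 : 1 ≤ y ^ (r + 2) := one_le_pow₀ hy
  have h5 : y ^ (r + 1) ≤ y ^ (r + 2) := pow_le_pow_right₀ hy (by omega)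
  have h6 : (1 : ℝ) + S * (2 * y + 1) ^ r ≤ 1 + 3 ^ r * y ^ (r + 1) := by
    have : (S : ℝ) * (2 * y + 1) ^ r ≤ y * (3 * y) ^ r := by gcongr
    calc (1 : ℝ) + S * (2 * y + 1) ^ r ≤ 1 + y * (3 * y) ^ r := by linarith
      _ = 1 + 3 ^ r * y ^ (r + 1) := by rw [mul_pow]; ring
  have h7 : (1 : ℝ) ≤ 3 ^ r := one_le_pow₀ (by norm_num)
  set F : ℝ := (r + 3).factorial * y ^ (r + 2) with hF
  have h8 : 1 + 3 ^ r * y ^ (r + 1) ≤ F := by
    calc 1 + 3 ^ r * y ^ (r + 1) ≤ 3 ^ r * y ^ (r + 2) + 3 ^ r * y ^ (r + 2) := by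
          have e1 : (1 : ℝ) ≤ 3 ^ r * y ^ (r + 2) := by nlinarith
          have e2 : (3 : ℝ) ^ r * y ^ (r + 1) ≤ 3 ^ r * y ^ (r + 2) := by gcongr
          linarith
      _ ≤ 3 ^ (r + 1) * y ^ (r + 2) := by
          have e0 : (3 : ℝ) ^ (r + 1) = 3 ^ r * 3 := pow_succ _ _
          rw [e0]
          have : 0 ≤ (3 : ℝ) ^ r * y ^ (r + 2) := by positivity
          linarith
      _ ≤ F := by rw [hF]; gcongr
  have h9 : 1 ≤ F := by
    have : (0 : ℝ) ≤ 3 ^ r * y ^ (r + 1) := by positivity
    linarith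
  have h10 : F ≤ 4 * (k + 2) * F := by
    have : (0 : ℝ) ≤ k := Nat.cast_nonneg _
    nlinarith
  calc (1 : ℝ) + S * (2 * y + 1) ^ r ≤ F := h6.trans h8
    _ ≤ 4 * (k + 2) * F := h10
    _ ≤ (4 * (k + 2) * F) ^ 2 := le_self_pow₀ (by linarith) (by norm_num)

end Pool.Agent.MP_244be3_lc
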