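import Mathlib

set_option autoImplicit false

/-!
Linear threshold networks with real inputs.
-/

namespace Pool.Agent.MP_244be3_lc

open Finset

/-- A linear threshold network with `n` real inputs. `width 0 = n` is the number of inputs,
`width 1, ..., width depth` are the widths of the hidden layers, `W i j l` is the weight from
neuron `l` of layer `i` to neuron `j` of layer `i + 1`, `B i j` the bias of that neuron,
`a`, `a0` the output weights and the output bias. -/
structure Net (n : ℕ) where
  depth : ℕ
  width : ℕ → ℕ
  W : ℕ → ℕ → ℕ → ℝ
  B : ℕ → ℕ → ℝ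
  a : ℕ → ℝ
  a0 : ℝ
  width_zero : width 0 = n

namespace Net

variable {n : ℕ}

/-- The activations: `act x i j` is the value of neuron `j` of layer `i` on the input `x`. -/
noncomputable def act (N : Net n) (x : Fin n → ℝ) : ℕ → ℕ → ℝ
  | 0, j => if h : j < n then x ⟨j, h⟩ else 0
  | i + 1, j =>
    if 0 < (∑ l ∈ range (N.width i), N.W i j l * N.act x i l) + N.B i j then 1 else 0

/-- The function computed by the network. -/
noncomputable def eval (N : Net n) (x : Fin n → ℝ) : ℝ :=
  N.a0 + ∑ j ∈ range (N.width N.depth), N.a j * N.act x N.depth j

/-- The number of hidden neurons. -/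
def size (N : Net n) : ℕ := ∑ i ∈ Icc 1 N.depth, N.width i

end Net

/-- The first `N` entries of `w` are integer combinations, with coefficients of absolute value at
most `M`, of `r` real numbers. For `M = 1` this covers the case that `w` takes at most `r`
different values. -/
def Quant (r M N : ℕ) (w : ℕ → ℝ) : Prop :=
  ∃ t : Fin r → ℝ, ∀ j < N, ∃ c : Fin r → ℤ, (∀ i, |c i| ≤ M) ∧ w j = ∑ i, (c i : ℝ) * t i

/-- Bounded or few weights beyond the first hidden layer: the output weights have absolute value at
most `M`, or the output weights are integer combinations with coefficients at most `M` of `r` real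
numbers, or this holds for the incoming weights of each neuron of the second hidden layer. -/
def Tame {n : ℕ} (r M : ℕ) (N : Net n) : Prop :=
  (∀ j < N.width N.depth, |N.a j| ≤ M) ∨ Quant r M (N.width N.depth) N.a ∨
    ∀ j < N.width 2, Quant r M (N.width 1) (N.W 1 j)

/-- Inner product modulo two of the two halves of the vector of sign bits of `x`:
the value is `1` if the number of `i` with `x i > 0` and `x (k + i) > 0` is odd, else `0`. -/
noncomputable def ipSign (k : ℕ) (x : Fin (k + k) → ℝ) : ℝ :=
  if Odd (#{i : Fin k | 0 < x (Fin.castAdd k i) ∧ 0 < x (Fin.natAdd k i)}) then 1 else 0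

/-- The real number `1` or `0` attached to a bit. -/
def bit (b : Bool) : ℝ := if b then 1 else 0

/-- The sign attached to a bit. -/
def sg (b : Bool) : ℝ := if b then 1 else -1

/-- The test point with signs `s` and scale `ε`. -/
noncomputable def pt {n : ℕ} (ε : ℝ) (s : Fin n → Bool) : Fin n → ℝ :=
  fun l => sg (s l) * ε ^ ((l : ℕ) + 1)

end Pool.Agent.MP_244be3_lc
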