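import Pool.Agent.MP_244be3_lc.Defs

set_option autoImplicit false

/-!
Correlation of threshold matrices with the inner product matrix.
-/

namespace Pool.Agent.MP_244be3_lc

open Finset

variable {k : ℕ}

/-- The character table of `(ℤ/2)^k`. -/
def chi (u v : Fin k → Bool) : ℝ := ∏ i, (if u i && v i then (-1 : ℝ) else 1)

theorem abs_chi (u v : Fin k → Bool) : |chi u v| = 1 := by
  unfold chi
  rw [Finset.abs_prod]
  apply Finset.prod_eq_one
  intro i _
  split_ifs <;> simp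

theorem chi_orth (u u' : Fin k → Bool) :
    ∑ v, chi u v * chi u' v = if u = u' then (2 : ℝ) ^ k else 0 := by
  have h1 : ∀ v : Fin k → Bool, chi u v * chi u' v =
      ∏ i, ((if u i && v i then (-1 : ℝ) else 1) * (if u' i && v i then (-1 : ℝ) else 1)) := by
    intro v
    unfold chi
    rw [Finset.prod_mul_distrib]
  simp_rw [h1]
  have h2 := (Finset.prod_univ_sum (fun _ : Fin k => (univ : Finset Bool))
    (fun (i : Fin k) (b : Bool) =>
      (if u i && b then (-1 : ℝ) else 1) * (if u' i && b then (-1 : ℝ) else 1))).symm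
  rw [Fintype.piFinset_univ] at h2
  rw [h2]
  have h3 : ∀ i : Fin k, (∑ b : Bool,
      (if u i && b then (-1 : ℝ) else 1) * (if u' i && b then (-1 : ℝ) else 1)) =
      if u i = u' i then 2 else 0 := by
    intro i
    rw [Fintype.sum_bool]
    cases u i <;> cases u' i <;> norm_num
  simp_rw [h3]
  split_ifs with h
  · subst h
    simp
  · obtain ⟨i, hi⟩ := Function.ne_iff.1 h
    exact Finset.prod_eq_zero (mem_univ i) (if_neg hi)

theorem sum_sq (S : Finset (Fin k → Bool)) :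
    ∑ v, (∑ u ∈ S, chi u v) ^ 2 = (2 : ℝ) ^ k * #S := by
  have h1 : ∀ v : Fin k → Bool, (∑ u ∈ S, chi u v) ^ 2 = ∑ u ∈ S, ∑ u' ∈ S, chi u v * chi u' v := by
    intro v
    rw [pow_two, Finset.sum_mul_sum]
  simp_rw [h1]
  rw [Finset.sum_comm]
  have h2 : ∀ u ∈ S, ∑ v, ∑ u' ∈ S, chi u v * chi u' v = (2 : ℝ) ^ k := by
    intro u hu
    rw [Finset.sum_comm]
    simp_rw [chi_orth]
    rw [Finset.sum_ite_eq]
    rw [if_pos hu]
  rw [Finset.sum_congr rfl h2, Finset.sum_const, nsmul_eq_mul, mul_comm]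

/-- Lindsey's bound for a rectangle. -/
theorem rect (r : ℕ → (Fin k → Bool)) (a b : ℕ)
    (hr : Set.InjOn r (Set.Ico a b)) (C : Finset (Fin k → Bool)) :
    |∑ v ∈ C, ∑ l ∈ Ico a b, chi (r l) v| ≤ √((2 : ℝ) ^ k * ((b - a : ℕ) : ℝ) * #C) := by
  apply Real.abs_le_sqrt
  have h1 : (∑ v ∈ C, ∑ l ∈ Ico a b, chi (r l) v) ^ 2 ≤
      #C * ∑ v ∈ C, (∑ l ∈ Ico a b, chi (r l) v) ^ 2 := sq_sum_le_card_mul_sum_sq
  have h2 : ∑ v ∈ C, (∑ l ∈ Ico a b, chi (r l) v) ^ 2 ≤
      ∑ v, (∑ l ∈ Ico a b, chi (r l) v) ^ 2 :=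
    Finset.sum_le_sum_of_subset_of_nonneg (subset_univ _) fun _ _ _ => sq_nonneg _
  have h3 : ∀ v : Fin k → Bool, ∑ l ∈ Ico a b, chi (r l) v = ∑ u ∈ (Ico a b).image r, chi u v := by
    intro v
    rw [Finset.sum_image]
    intro x hx y hy hxy
    exact hr (by simpa using hx) (by simpa using hy) hxy
  have h4 : ∑ v, (∑ l ∈ Ico a b, chi (r l) v) ^ 2 = (2 : ℝ) ^ k * ((b - a : ℕ) : ℝ) := by
    simp_rw [h3]
    rw [sum_sq, Finset.card_image_of_injOn (by simpa using hr), Nat.card_Ico]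
  calc (∑ v ∈ C, ∑ l ∈ Ico a b, chi (r l) v) ^ 2 ≤
      #C * ∑ v ∈ C, (∑ l ∈ Ico a b, chi (r l) v) ^ 2 := h1
    _ ≤ #C * ∑ v, (∑ l ∈ Ico a b, chi (r l) v) ^ 2 := by gcongr
    _ = (2 : ℝ) ^ k * ((b - a : ℕ) : ℝ) * #C := by rw [h4]; ring

/-- The sum over a threshold region. -/
noncomputable def reg (U V : (Fin k → Bool) → ℝ) (r : ℕ → (Fin k → Bool)) (a b : ℕ)
    (C : Finset (Fin k → Bool)) : ℝ :=
  ∑ v ∈ C, ∑ l ∈ Ico a b, if 0 < U (r l) + V v then chi (r l) v else 0

theorem reg_le (U V : (Fin k → Bool) → ℝ) (r : ℕ → (Fin k → Bool)) :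
    ∀ (i a : ℕ) (_ : Set.InjOn r (Set.Ico a (a + 2 ^ i)))
      (_ : ∀ l l', a ≤ l → l ≤ l' → l' < a + 2 ^ i → U (r l') ≤ U (r l))
      (C : Finset (Fin k → Bool)),
      |reg U V r a (a + 2 ^ i) C| ≤ (i + 1) * √((2 : ℝ) ^ k * 2 ^ i * #C) := by
  intro i
  induction i with
  | zero =>
    intro a _ _ C
    have hcard : (#C : ℝ) ≤ 2 ^ k := by
      have h := Finset.card_le_univ C
      rw [Fintype.card_fun, Fintype.card_bool, Fintype.card_fin] at h
      exact_mod_cast h
    have h1 : |reg U V r a (a + 2 ^ 0) C| ≤ #C := by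
      unfold reg
      calc |∑ v ∈ C, ∑ l ∈ Ico a (a + 2 ^ 0), if 0 < U (r l) + V v then chi (r l) v else 0| ≤
          ∑ v ∈ C, |∑ l ∈ Ico a (a + 2 ^ 0), if 0 < U (r l) + V v then chi (r l) v else 0| :=
            Finset.abs_sum_le_sum_abs _ _
        _ ≤ ∑ v ∈ C, 1 := by
            apply Finset.sum_le_sum
            intro v _
            rw [pow_zero, Nat.Ico_succ_singleton, Finset.sum_singleton]
            split_ifs
            · rw [abs_chi]
            · simp
        _ = #C := by simp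
    refine h1.trans ?_
    rw [Nat.cast_zero, zero_add, one_mul, pow_zero, mul_one]
    apply Real.le_sqrt_of_sq_le
    nlinarith [Nat.cast_nonneg (α := ℝ) (#C)]
  | succ i ih =>
    intro a hinj hanti C
    set b := a + 2 ^ i with hb
    have hc : a + 2 ^ (i + 1) = b + 2 ^ i := by rw [hb, pow_succ]; ring
    have hpos : 0 < 2 ^ i := by positivity
    rw [hc] at hinj hanti ⊢
    set C1 := C.filter fun v => ¬ 0 < U (r (b - 1)) + V v with hC1
    set C2 := C.filter fun v => 0 < U (r (b - 1)) + V v with hC2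
    have hsplit : reg U V r a (b + 2 ^ i) C =
        reg U V r a b C1 + (∑ v ∈ C2, ∑ l ∈ Ico a b, chi (r l) v) + reg U V r b (b + 2 ^ i) C2 := by
      unfold reg
      rw [← Finset.sum_filter_add_sum_filter_not C (fun v => 0 < U (r (b - 1)) + V v)]
      rw [← hC1, ← hC2]
      have e1 : ∑ v ∈ C2, ∑ l ∈ Ico a (b + 2 ^ i), (if 0 < U (r l) + V v then chi (r l) v else 0) =
          (∑ v ∈ C2, ∑ l ∈ Ico a b, chi (r l) v) +
            ∑ v ∈ C2, ∑ l ∈ Ico b (b + 2 ^ i), if 0 < U (r l) + V v then chi (r l) v else 0 := by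
        rw [← Finset.sum_add_distrib]
        apply Finset.sum_congr rfl
        intro v hv
        rw [← Finset.sum_Ico_consecutive _ (show a ≤ b by omega) (show b ≤ b + 2 ^ i by omega)]
        congr 1
        apply Finset.sum_congr rfl
        intro l hl
        rw [Finset.mem_Ico] at hl
        have h1 := hanti l (b - 1) hl.1 (by omega) (by omega)
        have h2 : 0 < U (r (b - 1)) + V v := (Finset.mem_filter.1 hv).2
        rw [if_pos (by linarith)]
      have e2 : ∑ v ∈ C1, ∑ l ∈ Ico a (b + 2 ^ i), (if 0 < U (r l) + V v then chi (r l) v else 0) =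
          ∑ v ∈ C1, ∑ l ∈ Ico a b, if 0 < U (r l) + V v then chi (r l) v else 0 := by
        apply Finset.sum_congr rfl
        intro v hv
        rw [← Finset.sum_Ico_consecutive _ (show a ≤ b by omega) (show b ≤ b + 2 ^ i by omega)]
        have e3 : ∑ l ∈ Ico b (b + 2 ^ i), (if 0 < U (r l) + V v then chi (r l) v else 0) = 0 := by
          apply Finset.sum_eq_zero
          intro l hl
          rw [Finset.mem_Ico] at hl
          have h1 := hanti (b - 1) l (by omega) (by omega) hl.2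
          have h2 : ¬ 0 < U (r (b - 1)) + V v := (Finset.mem_filter.1 hv).2
          rw [if_neg (by push Not at h2 ⊢; linarith)]
        rw [e3, add_zero]
      rw [e1, e2]
      ring
    have i1 := ih a (hinj.mono (by rw [← hb]; exact Set.Ico_subset_Ico_right (by omega)))
      (fun l l' h1 h2 h3 => hanti l l' h1 h2 (by omega)) C1
    rw [← hb] at i1
    have i2 := ih b (hinj.mono (Set.Ico_subset_Ico_left (by omega)))
      (fun l l' h1 h2 h3 => hanti l l' (by omega) h2 h3) C2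
    have i3 := rect r a b (hinj.mono (Set.Ico_subset_Ico_right (by omega))) C2
    have hba : ((b - a : ℕ) : ℝ) = 2 ^ i := by
      have : b - a = 2 ^ i := by omega
      rw [this]
      push_cast
      rfl
    rw [hba] at i3
    have hcard : (#C1 : ℝ) + #C2 = #C := by
      have h := Finset.card_filter_add_card_filter_not (s := C) (fun v => 0 < U (r (b - 1)) + V v)
      rw [← hC1, ← hC2] at h
      have : #C1 + #C2 = #C := by omega
      exact_mod_cast this
    -- arithmetic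
    set X : ℝ := (2 : ℝ) ^ k * 2 ^ i with hX
    have hX0 : 0 ≤ X := by positivity
    have hx1 : 0 ≤ (#C1 : ℝ) := Nat.cast_nonneg _
    have hx2 : 0 ≤ (#C2 : ℝ) := Nat.cast_nonneg _
    have hpow : (2 : ℝ) ^ k * 2 ^ (i + 1) * #C = X * (2 * (#C1 + #C2)) := by
      rw [hcard, hX, pow_succ]; ring
    rw [hpow]
    rw [Real.sqrt_mul hX0] at i1 i2 i3 ⊢
    have s1 : √(#C1 : ℝ) + √(#C2 : ℝ) ≤ √(2 * ((#C1 : ℝ) + #C2)) := by
      apply Real.le_sqrt_of_sq_le
      have e1 := Real.sq_sqrt hx1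
      have e2 := Real.sq_sqrt hx2
      nlinarith [sq_nonneg (√(#C1 : ℝ) - √(#C2 : ℝ))]
    have s2 : √(#C2 : ℝ) ≤ √(2 * ((#C1 : ℝ) + #C2)) := by
      apply Real.sqrt_le_sqrt
      linarith
    have hsX : 0 ≤ √X := Real.sqrt_nonneg _
    have hi : (0 : ℝ) ≤ i + 1 := by positivity
    rw [hsplit]
    calc |reg U V r a b C1 + (∑ v ∈ C2, ∑ l ∈ Ico a b, chi (r l) v) + reg U V r b (b + 2 ^ i) C2| ≤
        |reg U V r a b C1| + |∑ v ∈ C2, ∑ l ∈ Ico a b, chi (r l) v| +
          |reg U V r b (b + 2 ^ i) C2| := abs_add_three _ _ _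
      _ ≤ (i + 1) * (√X * √(#C1 : ℝ)) + √X * √(#C2 : ℝ) + (i + 1) * (√X * √(#C2 : ℝ)) := by
          linarith
      _ = √X * ((i + 1) * (√(#C1 : ℝ) + √(#C2 : ℝ)) + √(#C2 : ℝ)) := by ring
      _ ≤ √X * ((i + 1) * √(2 * ((#C1 : ℝ) + #C2)) + √(2 * ((#C1 : ℝ) + #C2))) := by
          gcongr
      _ = ((i + 1 : ℕ) + 1) * (√X * √(2 * ((#C1 : ℝ) + #C2))) := by push_cast; ring

/-- Threshold matrices have small correlation with the inner product matrix. -/
theorem disc (U V : (Fin k → Bool) → ℝ) :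
    |∑ v, ∑ u, if 0 < U u + V v then chi u v else 0| ≤
      (k + 1) * √((2 : ℝ) ^ k * 2 ^ k * 2 ^ k) := by
  have hcard : Fintype.card (Fin k → Bool) = 2 ^ k := by
    rw [Fintype.card_fun, Fintype.card_bool, Fintype.card_fin]
  let e : Fin (2 ^ k) ≃ (Fin k → Bool) := (Fintype.equivFinOfCardEq hcard).symm
  let f : Fin (2 ^ k) → ℝ := fun i => -U (e i)
  let σ := Tuple.sort f
  have hmono : Monotone (f ∘ σ) := Tuple.monotone_sort f
  let r : ℕ → (Fin k → Bool) := fun l =>
    if h : l < 2 ^ k then e (σ ⟨l, h⟩) else fun _ => false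
  have hr : ∀ (l : ℕ) (h : l < 2 ^ k), r l = e (σ ⟨l, h⟩) := fun l h => dif_pos h
  have hinj : Set.InjOn r (Set.Ico 0 (0 + 2 ^ k)) := by
    intro x hx y hy hxy
    rw [Set.mem_Ico, zero_add] at hx hy
    rw [hr x hx.2, hr y hy.2] at hxy
    have := σ.injective (e.injective hxy)
    simpa using this
  have hanti : ∀ l l', 0 ≤ l → l ≤ l' → l' < 0 + 2 ^ k → U (r l') ≤ U (r l) := by
    intro l l' _ h2 h3
    rw [zero_add] at h3
    rw [hr l (by omega), hr l' h3]
    have := hmono (show (⟨l, by omega⟩ : Fin (2 ^ k)) ≤ ⟨l', h3⟩ from h2)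
    simp only [Function.comp, f] at this
    linarith
  have h := reg_le U V r k 0 hinj hanti univ
  have h1 : reg U V r 0 (0 + 2 ^ k) univ = ∑ v, ∑ u, if 0 < U u + V v then chi u v else 0 := by
    unfold reg
    apply Finset.sum_congr rfl
    intro v _
    rw [zero_add, ← Finset.range_eq_Ico, Finset.sum_range]
    rw [← (σ.trans e).sum_comp]
    apply Finset.sum_congr rfl
    intro i _
    rw [hr i i.2]
    rfl
  rw [h1] at h
  have h2 : (#(univ : Finset (Fin k → Bool)) : ℝ) = 2 ^ k := by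
    rw [Finset.card_univ, hcard]
    push_cast
    rfl
  rwa [h2] at h

end Pool.Agent.MP_244be3_lc
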