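import Pool.Agent.MP_244be3_lc.Boolean

set_option autoImplicit false

/-!
Translation between the frozen form of the computation of a network and `Net.eval`, and the
analytic estimates for the equivalence.
-/

namespace Pool.Agent.MP_244be3_lc

open Finset Filter Topology

/-- The computation relation in the form used in the frozen statement. -/
def Frozen (d k : ℕ) (w : ℕ → ℕ) (W : ℕ → ℕ → ℕ → ℝ) (B : ℕ → ℕ → ℝ) (a : ℕ → ℝ) (a0 : ℝ)
    (f : (Fin d → ℝ) → ℝ) : Prop :=
  ∀ x : Fin d → ℝ, ∀ v : ℕ → ℕ → ℝ,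
    (∀ j : Fin d, v 0 (j : ℕ) = x j) →
    (∀ i < k, ∀ j < w (i + 1),
      v (i + 1) j =
        if 0 < (∑ l ∈ Finset.range (w i), W i j l * v i l) + B i j then 1 else 0) →
    f x = a0 + ∑ j ∈ Finset.range (w k), a j * v k j

theorem frozen_iff {d k : ℕ} {w : ℕ → ℕ} (hw : w 0 = d) (W : ℕ → ℕ → ℕ → ℝ) (B : ℕ → ℕ → ℝ)
    (a : ℕ → ℝ) (a0 : ℝ) (f : (Fin d → ℝ) → ℝ) :
    Frozen d k w W B a a0 f ↔ ∀ x, (⟨k, w, W, B, a, a0, hw⟩ : Net d).eval x = f x := by
  set N : Net d := ⟨k, w, W, B, a, a0, hw⟩ with hN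
  constructor
  · intro h x
    rw [h x (N.act x) ?_ ?_]
    · rfl
    · intro j
      rw [Net.act, dif_pos j.2]
    · intro i _ j _
      rfl
  · intro h x v h0 h1
    have key : ∀ i ≤ k, ∀ j < w i, v i j = N.act x i j := by
      intro i
      induction i with
      | zero =>
        intro _ j hj
        rw [hw] at hj
        rw [Net.act, dif_pos hj]
        exact h0 ⟨j, hj⟩
      | succ i ih =>
        intro hi j hj
        rw [h1 i (by omega) j hj, act_succ]
        change _ = if 0 < (∑ l ∈ range (w i), W i j l * N.act x i l) + B i j then (1 : ℝ) else 0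
        rw [Finset.sum_congr rfl fun l hl => by rw [ih (by omega) l (mem_range.1 hl)]]
    rw [← h x, Net.eval]
    change a0 + ∑ j ∈ range (w k), a j * N.act x k j = _
    congr 1
    apply Finset.sum_congr rfl
    intro j hj
    rw [key k le_rfl j (mem_range.1 hj)]

theorem growth (c ε : ℝ) (hc : 0 < c) (hε : 0 < ε) :
    ∀ᶠ s : ℕ in atTop, Real.exp (c / 2 * (s : ℝ) ^ ε) + s ≤ Real.exp (c * (s : ℝ) ^ ε) := by
  have h1 : Tendsto (fun s : ℕ => (s : ℝ) ^ ε) atTop atTop :=
    (tendsto_rpow_atTop hε).comp tendsto_natCast_atTop_atTop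
  have h2 := (isLittleO_rpow_exp_pos_mul_atTop (1 / ε) (show 0 < c / 2 by positivity)).bound
    (show (0 : ℝ) < 1 / 2 by norm_num)
  have h3 := h1.eventually h2
  filter_upwards [h3, h1.eventually (eventually_ge_atTop (2 / c)), eventually_ge_atTop 1]
    with s hs hs2 hs1
  have hs0 : (0 : ℝ) ≤ s := Nat.cast_nonneg _
  rw [← Real.rpow_mul hs0, mul_one_div_cancel hε.ne', Real.rpow_one, Real.norm_eq_abs,
    Real.norm_eq_abs, abs_of_nonneg hs0, abs_of_pos (Real.exp_pos _)] at hs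
  set E := Real.exp (c / 2 * (s : ℝ) ^ ε) with hE
  have e1 : Real.exp (c * (s : ℝ) ^ ε) = E * E := by
    rw [hE, ← Real.exp_add]
    congr 1
    ring
  have e2 : 2 ≤ E := by
    have h4 : 1 ≤ c / 2 * (s : ℝ) ^ ε := by
      have : 2 / c * (c / 2) = 1 := by field_simp
      calc (1 : ℝ) = c / 2 * (2 / c) := by field_simp
        _ ≤ c / 2 * (s : ℝ) ^ ε := by gcongr
    have := Real.add_one_le_exp (c / 2 * (s : ℝ) ^ ε)
    linarith
  rw [e1]
  nlinarith

end Pool.Agent.MP_244be3_lc
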