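import Pool.Agent.MP_244be3_lc.Restrict
import Pool.Agent.MP_244be3_lc.Disc

set_option autoImplicit false

/-!
Networks with at most two hidden layers at the test points.
-/

namespace Pool.Agent.MP_244be3_lc

open Finset Filter Topology

theorem act_one {n : ℕ} (N : Net n) (x : Fin n → ℝ) (i : ℕ) :
    N.act x 1 i = if 0 < (∑ l : Fin n, N.W 0 i l * x l) + N.B 0 i then 1 else 0 := by
  have h : ∑ l ∈ range (N.width 0), N.W 0 i l * N.act x 0 l = ∑ l : Fin n, N.W 0 i l * x l := by
    rw [N.width_zero, Finset.sum_range]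
    apply Finset.sum_congr rfl
    intro l _
    rw [Net.act, dif_pos l.2]
  rw [Net.act, h]

theorem act_succ {n : ℕ} (N : Net n) (x : Fin n → ℝ) (i j : ℕ) :
    N.act x (i + 1) j =
      if 0 < (∑ l ∈ range (N.width i), N.W i j l * N.act x i l) + N.B i j then 1 else 0 := rfl

/-- First layer at the test points. -/
theorem first_layer {n : ℕ} (hn : 0 < n) (N : Net n) :
    ∃ ε : ℝ, 0 < ε ∧ ∃ (l : ℕ → Fin n) (p q : ℕ → ℤ), (∀ i, |q i| ≤ 1) ∧
      ∀ s : Fin n → Bool, ∀ i < N.width 1, N.act (pt ε s) 1 i = p i + q i * bit (s (l i)) := by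
  choose l p q hq h using fun i : ℕ => affine_literal hn (fun l : Fin n => N.W 0 i l) (N.B 0 i)
  have hall : ∀ᶠ ε in 𝓝[>] (0 : ℝ), ∀ i ∈ range (N.width 1), ∀ s : Fin n → Bool,
      (if 0 < (∑ j : Fin n, N.W 0 i j * pt ε s j) + N.B 0 i then (1 : ℝ) else 0) =
        p i + q i * bit (s (l i)) :=
    (Filter.eventually_all_finset _).2 fun i _ => h i
  obtain ⟨ε, hε, hpos⟩ := (hall.and self_mem_nhdsWithin).exists
  refine ⟨ε, hpos, l, p, q, hq, ?_⟩
  intro s i hi
  rw [act_one]
  exact hε i (mem_range.2 hi) s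

/-- The two halves of a sign vector. -/
def glue {k : ℕ} (u v : Fin k → Bool) : Fin (k + k) → Bool := Fin.append u v

theorem bit_glue {k : ℕ} (u v : Fin k → Bool) (l : Fin (k + k)) :
    bit (glue u v l) = (if h : (l : ℕ) < k then bit (u ⟨l, h⟩) else 0) +
      (if h : (l : ℕ) < k then 0 else bit (v ⟨l - k, by omega⟩)) := by
  unfold glue
  induction l using Fin.addCases with
  | left i =>
    have hi : ((Fin.castAdd k i : Fin (k + k)) : ℕ) < k := by simp
    rw [Fin.append_left, dif_pos hi, dif_pos hi, add_zero]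
    congr
  | right i =>
    have hi : ¬ ((Fin.natAdd k i : Fin (k + k)) : ℕ) < k := by simp
    rw [Fin.append_right, dif_neg hi, dif_neg hi, zero_add]
    congr
    apply Fin.ext
    simp

/-- Thresholds of sign bits of the two halves: normal form of a neuron of the second layer. -/
theorem second_layer {k : ℕ} (N : Net (k + k)) {ε : ℝ} {l : ℕ → Fin (k + k)} {p q : ℕ → ℤ}
    (h : ∀ s : Fin (k + k) → Bool, ∀ i < N.width 1,
      N.act (pt ε s) 1 i = p i + q i * bit (s (l i))) (j : ℕ) (u v : Fin k → Bool) :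
    N.act (pt ε (glue u v)) 2 j =
      if 0 < (∑ i ∈ range (N.width 1), N.W 1 j i *
          (q i * (if h : (l i : ℕ) < k then bit (u ⟨l i, h⟩) else 0))) +
        ((∑ i ∈ range (N.width 1), N.W 1 j i *
          (p i + q i * (if h : (l i : ℕ) < k then 0 else bit (v ⟨l i - k, by omega⟩)))) + N.B 1 j)
      then 1 else 0 := by
  have e : (∑ i ∈ range (N.width 1), N.W 1 j i * N.act (pt ε (glue u v)) 1 i) + N.B 1 j =
      (∑ i ∈ range (N.width 1), N.W 1 j i *
          (q i * (if h : (l i : ℕ) < k then bit (u ⟨l i, h⟩) else 0))) +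
        ((∑ i ∈ range (N.width 1), N.W 1 j i *
          (p i + q i * (if h : (l i : ℕ) < k then 0 else bit (v ⟨l i - k, by omega⟩)))) +
            N.B 1 j) := by
    rw [← add_assoc, ← Finset.sum_add_distrib]
    congr 1
    apply Finset.sum_congr rfl
    intro i hi
    rw [h _ i (mem_range.1 hi), bit_glue]
    ring
  rw [act_succ, e]

/-- The inner product function. -/
noncomputable def ip {k : ℕ} (u v : Fin k → Bool) : ℝ :=
  if Odd (#{i : Fin k | (u i && v i) = true}) then 1 else 0

theorem ip_eq {k : ℕ} (u v : Fin k → Bool) : ip u v = (1 - chi u v) / 2 := by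
  have h : chi u v = (-1) ^ (#{i : Fin k | (u i && v i) = true}) := by
    unfold chi
    rw [Finset.prod_ite]
    simp
  rw [h, ip]
  split_ifs with h1
  · rw [h1.neg_one_pow]; norm_num
  · rw [(Nat.not_odd_iff_even.1 h1).neg_one_pow]; norm_num

theorem ipSign_pt {k : ℕ} {ε : ℝ} (hε : 0 < ε) (u v : Fin k → Bool) :
    ipSign k (pt ε (glue u v)) = ip u v := by
  unfold ipSign ip
  have h : ∀ l : Fin (k + k), 0 < pt ε (glue u v) l ↔ glue u v l = true := by
    intro l
    unfold pt
    have h1 : 0 < ε ^ ((l : ℕ) + 1) := pow_pos hε _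
    cases hb : glue u v l
    · simp [sg, h1.le]
    · simp [sg, h1]
  have e : (univ.filter fun i : Fin k => 0 < pt ε (glue u v) (Fin.castAdd k i) ∧
      0 < pt ε (glue u v) (Fin.natAdd k i)) =
      univ.filter fun i : Fin k => (u i && v i) = true := by
    apply Finset.filter_congr
    intro i _
    rw [h, h]
    unfold glue
    rw [Fin.append_left, Fin.append_right]
    simp
  rw [e]

/-- A function of two bit vectors written as a linear combination of thresholds. -/
structure Comb (k m : ℕ) (a : ℕ → ℝ) (r L : ℕ) (g : (Fin k → Bool) → (Fin k → Bool) → ℝ)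
    (small : Prop) where
  a0 : ℝ
  U : ℕ → (Fin k → Bool) → ℝ
  V : ℕ → (Fin k → Bool) → ℝ
  eq : ∀ u v, g u v = a0 + ∑ j ∈ range m, a j * (if 0 < U j u + V j v then 1 else 0)
  int : small → ∀ j < m, ∃ t : Fin r → ℝ, ∀ u, ∃ c : Fin r → ℤ, (∀ i, |c i| ≤ L) ∧
    U j u = ∑ i, (c i : ℝ) * t i

theorem bit_int (b : Bool) : ∃ z : ℤ, |z| ≤ 1 ∧ bit b = z := by
  cases b
  · exact ⟨0, by norm_num, by simp [bit]⟩
  · exact ⟨1, by norm_num, by simp [bit]⟩

/-- Depth two. -/
theorem comb_two {k : ℕ} (hk : 0 < k) (N : Net (k + k)) (hd : N.depth = 2)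
    (hN : ∀ x, N.eval x = ipSign k x) (r A : ℕ) :
    Nonempty (Comb k (N.width 2) N.a r (N.width 1 * A) ip
      (∀ j < N.width 2, Quant r A (N.width 1) (N.W 1 j))) := by
  obtain ⟨ε, hε, l, p, q, hq, h⟩ := first_layer (show 0 < k + k by omega) N
  refine ⟨{
    a0 := N.a0
    U := fun j u => ∑ i ∈ range (N.width 1), N.W 1 j i *
      (q i * (if h : (l i : ℕ) < k then bit (u ⟨l i, h⟩) else 0))
    V := fun j v => (∑ i ∈ range (N.width 1), N.W 1 j i *
      (p i + q i * (if h : (l i : ℕ) < k then 0 else bit (v ⟨l i - k, by omega⟩)))) + N.B 1 j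
    eq := ?_
    int := ?_ }⟩
  · intro u v
    rw [← ipSign_pt hε u v, ← hN, Net.eval, hd]
    congr 1
    apply Finset.sum_congr rfl
    intro j _
    rw [second_layer N h]
  · intro hs j hj
    obtain ⟨t, ht⟩ := hs j hj
    choose! c hc hc' using ht
    refine ⟨t, fun u => ?_⟩
    have h1 : ∀ i : ℕ, ∃ z : ℤ, |z| ≤ 1 ∧
        ((q i : ℝ) * (if h : (l i : ℕ) < k then bit (u ⟨l i, h⟩) else 0)) = z := by
      intro i
      by_cases hl : (l i : ℕ) < k
      · obtain ⟨b, hb, hb'⟩ := bit_int (u ⟨l i, hl⟩)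
        refine ⟨q i * b, ?_, ?_⟩
        · rw [abs_mul]
          have h2 := hq i
          calc |q i| * |b| ≤ 1 * 1 := by gcongr
            _ = 1 := by ring
        · rw [dif_pos hl, hb']
          push_cast
          ring
      · refine ⟨0, by simp, ?_⟩
        rw [dif_neg hl]
        simp
    choose z hz hz' using h1
    refine ⟨fun e => ∑ i ∈ range (N.width 1), c i e * z i, ?_, ?_⟩
    · intro e
      calc |∑ i ∈ range (N.width 1), c i e * z i| ≤ ∑ i ∈ range (N.width 1), |c i e * z i| :=
            Finset.abs_sum_le_sum_abs _ _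
        _ ≤ ∑ i ∈ range (N.width 1), (A : ℤ) := by
            apply Finset.sum_le_sum
            intro i hi
            rw [abs_mul]
            have h3 := hc i (mem_range.1 hi) e
            have h4 := hz i
            calc |c i e| * |z i| ≤ A * 1 := by gcongr
              _ = A := by ring
        _ = ((N.width 1 * A : ℕ) : ℤ) := by simp
    · push_cast
      simp_rw [Finset.sum_mul]
      rw [Finset.sum_comm]
      apply Finset.sum_congr rfl
      intro i hi
      rw [hz' i, hc' i (mem_range.1 hi), Finset.sum_mul]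
      exact Finset.sum_congr rfl fun e _ => by ring

/-- Depth one. -/
theorem comb_one {k : ℕ} (hk : 0 < k) (N : Net (k + k)) (hd : N.depth = 1)
    (hN : ∀ x, N.eval x = ipSign k x) (small : Prop) (r : ℕ) (hr : 0 < r) :
    Nonempty (Comb k (N.width 1) N.a r 1 ip small) := by
  obtain ⟨ε, hε, l, p, q, hq, h⟩ := first_layer (show 0 < k + k by omega) N
  refine ⟨{
    a0 := N.a0
    U := fun i u => q i * (if h : (l i : ℕ) < k then bit (u ⟨l i, h⟩) else 0)
    V := fun i v => (p i + q i * (if h : (l i : ℕ) < k then 0 else bit (v ⟨l i - k, by omega⟩))) -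
      1 / 2
    eq := ?_
    int := ?_ }⟩
  · intro u v
    rw [← ipSign_pt hε u v, ← hN, Net.eval, hd]
    congr 1
    apply Finset.sum_congr rfl
    intro i hi
    congr 1
    have h1 := h (glue u v) i (mem_range.1 hi)
    rw [bit_glue] at h1
    have h2 : N.act (pt ε (glue u v)) 1 i = 0 ∨ N.act (pt ε (glue u v)) 1 i = 1 := by
      rw [act_one]
      split_ifs
      · right; rfl
      · left; rfl
    rcases h2 with h2 | h2
    · rw [h2] at h1 ⊢
      rw [if_neg]
      linarith
    · rw [h2] at h1 ⊢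
      rw [if_pos]
      linarith
  · intro _ i _
    refine ⟨fun e => if e = ⟨0, hr⟩ then 1 else 0, fun u => ?_⟩
    have h1 : ∃ z : ℤ, |z| ≤ 1 ∧
        ((q i : ℝ) * (if h : (l i : ℕ) < k then bit (u ⟨l i, h⟩) else 0)) = z := by
      by_cases hl : (l i : ℕ) < k
      · obtain ⟨b, hb, hb'⟩ := bit_int (u ⟨l i, hl⟩)
        refine ⟨q i * b, ?_, ?_⟩
        · rw [abs_mul]
          have h2 := hq i
          calc |q i| * |b| ≤ 1 * 1 := by gcongr
            _ = 1 := by ring
        · rw [dif_pos hl, hb']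
          push_cast
          ring
      · refine ⟨0, by simp, ?_⟩
        rw [dif_neg hl]
        simp
    obtain ⟨z, hz, hz'⟩ := h1
    refine ⟨fun _ => z, fun _ => by simpa using hz, ?_⟩
    rw [hz', Finset.sum_eq_single ⟨0, hr⟩]
    · simp
    · intro e _ he
      beta_reduce
      rw [if_neg he, mul_zero]
    · intro hh; simp at hh

/-- Depth zero is impossible. -/
theorem depth_ne_zero {k : ℕ} (hk : 0 < k) (N : Net (k + k))
    (hN : ∀ x, N.eval x = ipSign k x) : N.depth ≠ 0 := by
  intro hd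
  have hlin : ∀ x : Fin (k + k) → ℝ, N.eval x = N.a0 + ∑ j : Fin (k + k), N.a j * x j := by
    intro x
    rw [Net.eval, hd, N.width_zero, Finset.sum_range]
    congr 1
    apply Finset.sum_congr rfl
    intro j _
    rw [Net.act, dif_pos j.2]
  set y : Fin (k + k) → ℝ := pt 1 (glue (fun i : Fin k => decide ((i : ℕ) = 0)) (fun _ => true))
    with hy
  have hval : ∀ c : ℝ, 0 < c → ipSign k (fun j => c * y j) = ipSign k y := by
    intro c hc
    unfold ipSign
    simp only [mul_pos_iff_of_pos_left hc]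
  have h1 : ipSign k y = 1 := by
    rw [hy, ipSign_pt one_pos]
    unfold ip
    have : (univ.filter fun i : Fin k => ((decide ((i : ℕ) = 0)) && true) = true) = {⟨0, hk⟩} := by
      ext i
      simp [Fin.ext_iff]
    rw [this]
    simp
  have h0 : ipSign k (fun _ => 0) = 0 := by
    unfold ipSign
    simp
  have e0 := (hlin (fun _ => 0)).symm.trans ((hN _).trans h0)
  have e1 := (hlin y).symm.trans ((hN _).trans h1)
  have e2 := (hlin (fun j => 2 * y j)).symm.trans ((hN _).trans ((hval 2 two_pos).trans h1))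
  have e3 : ∑ j : Fin (k + k), N.a j * (2 * y j) = 2 * ∑ j : Fin (k + k), N.a j * y j := by
    rw [Finset.mul_sum]
    apply Finset.sum_congr rfl
    intro j _
    ring
  rw [e3] at e2
  simp at e0
  linarith

end Pool.Agent.MP_244be3_lc
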