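import Pool.Agent.MP_244be3_lc.Defs

set_option autoImplicit false

namespace Pool.Agent.MP_244be3_lc

open Finset Filter Topology

theorem sg_ne_zero (b : Bool) : sg b ≠ 0 := by
  unfold sg; split_ifs <;> norm_num

/-- Every affine functional is, at the test points of small scale, a literal or a constant. -/
theorem affine_literal {n : ℕ} (hn : 0 < n) (α : Fin n → ℝ) (β : ℝ) :
    ∃ (l : Fin n) (p q : ℤ), |q| ≤ 1 ∧ ∀ᶠ ε in 𝓝[>] (0 : ℝ), ∀ s : Fin n → Bool,
      (if 0 < (∑ i, α i * pt ε s i) + β then (1 : ℝ) else 0) = p + q * bit (s l) := by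
  by_cases hβ : β = 0
  · subst hβ
    by_cases hα : ∃ l : Fin n, α l ≠ 0
    · -- the smallest index with non-zero coefficient
      obtain ⟨l, hl, hmin⟩ : ∃ l : Fin n, α l ≠ 0 ∧ ∀ i : Fin n, i < l → α i = 0 := by
        have hne : (univ.filter fun i : Fin n => α i ≠ 0).Nonempty := by
          obtain ⟨l, hl⟩ := hα
          exact ⟨l, by simp [hl]⟩
        refine ⟨(univ.filter fun i : Fin n => α i ≠ 0).min' hne, ?_, ?_⟩
        · have := Finset.min'_mem _ hne
          simpa using this
        · intro i hi
          by_contra h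
          have := Finset.min'_le (univ.filter fun i : Fin n => α i ≠ 0) i (by simp [h])
          exact absurd hi (not_lt.2 this)
      have key : ∀ s : Fin n → Bool, ∀ᶠ ε in 𝓝[>] (0 : ℝ),
          (0 < (∑ i, α i * pt ε s i) + 0 ↔ 0 < α l * sg (s l)) := by
        intro s
        have hcont : Continuous fun ε : ℝ => ∑ i, α i * (sg (s i) * ε ^ ((i : ℕ) - (l : ℕ))) := by
          fun_prop
        have h0 : (∑ i, α i * (sg (s i) * (0 : ℝ) ^ ((i : ℕ) - (l : ℕ)))) = α l * sg (s l) := by
          rw [Finset.sum_eq_single l]
          · simp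
          · intro i _ hi
            rcases lt_or_gt_of_ne hi with h | h
            · rw [hmin i h]; simp
            · have : (i : ℕ) - (l : ℕ) ≠ 0 := by
                have : (l : ℕ) < (i : ℕ) := h
                omega
              rw [zero_pow this]; simp
          · intro h; simp at h
        have hne : α l * sg (s l) ≠ 0 := mul_ne_zero hl (sg_ne_zero _)
        have hlim : Tendsto (fun ε : ℝ => ∑ i, α i * (sg (s i) * ε ^ ((i : ℕ) - (l : ℕ))))
            (𝓝[>] 0) (𝓝 (α l * sg (s l))) := by
          rw [← h0]
          exact (hcont.tendsto 0).mono_left nhdsWithin_le_nhds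
        have hfac : ∀ ε : ℝ, (∑ i, α i * pt ε s i) + 0 =
            ε ^ ((l : ℕ) + 1) * ∑ i, α i * (sg (s i) * ε ^ ((i : ℕ) - (l : ℕ))) := by
          intro ε
          rw [add_zero, Finset.mul_sum]
          apply Finset.sum_congr rfl
          intro i _
          unfold pt
          rcases lt_or_ge i l with h | h
          · rw [hmin i h]; simp
          · have h' : (l : ℕ) ≤ (i : ℕ) := h
            have : (i : ℕ) + 1 = ((l : ℕ) + 1) + ((i : ℕ) - (l : ℕ)) := by omega
            rw [this, pow_add]
            ring
        rcases lt_or_gt_of_ne hne with h | h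
        · filter_upwards [hlim.eventually (gt_mem_nhds h), self_mem_nhdsWithin] with ε h1 h2
          have h3 : 0 < ε ^ ((l : ℕ) + 1) := pow_pos h2 _
          rw [hfac]
          constructor
          · intro h4
            exact absurd h4 (not_lt.2 (mul_nonpos_of_nonneg_of_nonpos h3.le h1.le))
          · intro h4
            exact absurd h4 (not_lt.2 h.le)
        · filter_upwards [hlim.eventually (lt_mem_nhds h), self_mem_nhdsWithin] with ε h1 h2
          have h3 : 0 < ε ^ ((l : ℕ) + 1) := pow_pos h2 _
          rw [hfac]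
          exact ⟨fun _ => h, fun _ => mul_pos h3 h1⟩
      have hall : ∀ᶠ ε in 𝓝[>] (0 : ℝ), ∀ s : Fin n → Bool,
          (0 < (∑ i, α i * pt ε s i) + 0 ↔ 0 < α l * sg (s l)) :=
        Filter.eventually_all.2 key
      rcases lt_or_gt_of_ne hl with h | h
      · refine ⟨l, 1, -1, by norm_num, ?_⟩
        filter_upwards [hall] with ε hε s
        by_cases hs : s l = true
        · have : ¬ (0 < α l * sg (s l)) := by rw [hs]; simp [sg]; exact h.le
          rw [if_neg (by rw [hε]; exact this), hs]
          simp [bit]
        · have hs' : s l = false := by simpa using hs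
          have : 0 < α l * sg (s l) := by rw [hs']; simp [sg]; exact h
          rw [if_pos (by rw [hε]; exact this), hs']
          simp [bit]
      · refine ⟨l, 0, 1, by norm_num, ?_⟩
        filter_upwards [hall] with ε hε s
        by_cases hs : s l = true
        · have : 0 < α l * sg (s l) := by rw [hs]; simp [sg]; exact h
          rw [if_pos (by rw [hε]; exact this), hs]
          simp [bit]
        · have hs' : s l = false := by simpa using hs
          have : ¬ (0 < α l * sg (s l)) := by rw [hs']; simp [sg]; exact h.le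
          rw [if_neg (by rw [hε]; exact this), hs']
          simp [bit]
    · push Not at hα
      refine ⟨⟨0, hn⟩, 0, 0, by norm_num, ?_⟩
      filter_upwards with ε s
      simp [hα]
  · have key : ∀ s : Fin n → Bool, Tendsto (fun ε : ℝ => (∑ i, α i * pt ε s i) + β)
        (𝓝[>] 0) (𝓝 β) := by
      intro s
      have hcont : Continuous fun ε : ℝ => (∑ i, α i * pt ε s i) + β := by
        unfold pt; fun_prop
      have h0 : (∑ i, α i * pt 0 s i) + β = β := by
        simp [pt]
      have := (hcont.tendsto 0).mono_left (nhdsWithin_le_nhds (s := Set.Ioi 0))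
      rwa [h0] at this
    rcases lt_or_gt_of_ne hβ with h | h
    · refine ⟨⟨0, hn⟩, 0, 0, by norm_num, ?_⟩
      have hall : ∀ᶠ ε in 𝓝[>] (0 : ℝ), ∀ s : Fin n → Bool, (∑ i, α i * pt ε s i) + β < 0 :=
        Filter.eventually_all.2 fun s => (key s).eventually (gt_mem_nhds h)
      filter_upwards [hall] with ε hε s
      rw [if_neg (not_lt.2 (hε s).le)]
      simp
    · refine ⟨⟨0, hn⟩, 1, 0, by norm_num, ?_⟩
      have hall : ∀ᶠ ε in 𝓝[>] (0 : ℝ), ∀ s : Fin n → Bool, 0 < (∑ i, α i * pt ε s i) + β :=
        Filter.eventually_all.2 fun s => (key s).eventually (lt_mem_nhds h)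
      filter_upwards [hall] with ε hε s
      rw [if_pos (hε s)]
      simp

end Pool.Agent.MP_244be3_lc
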