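import Pool.Agent.MP_244be3_lc.Normal

set_option autoImplicit false

/-!
The network with three hidden layers.
-/

namespace Pool.Agent.MP_244be3_lc

open Finset

/-- Three hidden layers: sign bits, conjunctions, counters. -/
def upNet (k : ℕ) : Net (k + k) where
  depth := 3
  width := fun i => if i ≤ 1 then k + k else k
  W := fun i j l =>
    if i = 0 then (if l = j then 1 else 0)
    else if i = 1 then (if l = j ∨ l = k + j then 1 else 0)
    else 1
  B := fun i j => if i = 0 then 0 else if i = 1 then -1 else -(j : ℝ)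
  a := fun j => (-1) ^ j
  a0 := 0
  width_zero := by simp

theorem up_one (k : ℕ) (x : Fin (k + k) → ℝ) (i : Fin (k + k)) :
    (upNet k).act x 1 i = if 0 < x i then 1 else 0 := by
  rw [act_one]
  have h : ∑ l : Fin (k + k), (upNet k).W 0 i l * x l = x i := by
    rw [Finset.sum_eq_single i]
    · simp [upNet]
    · intro l _ hl
      have : (l : ℕ) ≠ (i : ℕ) := fun h => hl (Fin.ext h)
      simp [upNet, this]
    · intro h; simp at h
  rw [h]
  simp [upNet]

theorem up_two (k : ℕ) (x : Fin (k + k) → ℝ) (i : Fin k) :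
    (upNet k).act x 2 i =
      if 0 < x (Fin.castAdd k i) ∧ 0 < x (Fin.natAdd k i) then 1 else 0 := by
  rw [act_succ]
  have hw : (upNet k).width 1 = k + k := by simp [upNet]
  have hW : ∀ l : ℕ, (upNet k).W 1 i l = if l = (i : ℕ) ∨ l = k + i then 1 else 0 := by
    intro l
    simp [upNet]
  have hB : (upNet k).B 1 i = -1 := by simp [upNet]
  have h1 := up_one k x (Fin.castAdd k i)
  have h2 := up_one k x (Fin.natAdd k i)
  rw [Fin.val_castAdd] at h1
  rw [Fin.val_natAdd] at h2
  have hsum : ∑ l ∈ range ((upNet k).width 1), (upNet k).W 1 i l * (upNet k).act x 1 l =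
      (if 0 < x (Fin.castAdd k i) then 1 else 0) + (if 0 < x (Fin.natAdd k i) then 1 else 0) := by
    rw [← h1, ← h2, hw]
    have hi := i.2
    have hne : (i : ℕ) ≠ k + (i : ℕ) := by omega
    rw [← Finset.sum_pair (f := fun l => (upNet k).act x 1 l) hne]
    have hsub : ({(i : ℕ), k + (i : ℕ)} : Finset ℕ) ⊆ range (k + k) := by
      intro l hl
      rw [Finset.mem_insert, Finset.mem_singleton] at hl
      rw [mem_range]
      omega
    rw [← Finset.sum_subset hsub]
    · apply Finset.sum_congr rfl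
      intro l hl
      rw [Finset.mem_insert, Finset.mem_singleton] at hl
      rw [hW, if_pos hl, one_mul]
    · intro l _ hl
      rw [Finset.mem_insert, Finset.mem_singleton] at hl
      rw [hW, if_neg hl, zero_mul]
  rw [hsum, hB]
  by_cases a1 : 0 < x (Fin.castAdd k i)
  · by_cases a2 : 0 < x (Fin.natAdd k i)
    · rw [if_pos a1, if_pos a2, if_pos (by norm_num), if_pos ⟨a1, a2⟩]
    · rw [if_pos a1, if_neg a2, if_neg (by norm_num), if_neg (fun h => a2 h.2)]
  · by_cases a2 : 0 < x (Fin.natAdd k i)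
    · rw [if_neg a1, if_pos a2, if_neg (by norm_num), if_neg (fun h => a1 h.1)]
    · rw [if_neg a1, if_neg a2, if_neg (by norm_num), if_neg (fun h => a1 h.1)]

theorem up_three (k : ℕ) (x : Fin (k + k) → ℝ) (j : ℕ) :
    (upNet k).act x 3 j =
      if j < #{i : Fin k | 0 < x (Fin.castAdd k i) ∧ 0 < x (Fin.natAdd k i)} then 1 else 0 := by
  rw [act_succ]
  have hw : (upNet k).width 2 = k := by simp [upNet]
  have hB : (upNet k).B 2 j = -(j : ℝ) := by simp [upNet]
  have hsum : ∑ l ∈ range ((upNet k).width 2), (upNet k).W 2 j l * (upNet k).act x 2 l =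
      #{i : Fin k | 0 < x (Fin.castAdd k i) ∧ 0 < x (Fin.natAdd k i)} := by
    rw [hw, Finset.sum_range]
    simp_rw [up_two]
    have hW : ∀ l : ℕ, (upNet k).W 2 j l = 1 := by
      intro l
      simp [upNet]
    simp_rw [hW, one_mul]
    rw [Finset.sum_boole]
  rw [hsum, hB]
  have : (0 : ℝ) < (#{i : Fin k | 0 < x (Fin.castAdd k i) ∧ 0 < x (Fin.natAdd k i)} : ℝ) + -(j : ℝ) ↔
      j < #{i : Fin k | 0 < x (Fin.castAdd k i) ∧ 0 < x (Fin.natAdd k i)} := by
    rw [← sub_eq_add_neg, sub_pos, Nat.cast_lt]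
  simp only [this]

theorem alt_sum (c : ℕ) : ∑ j ∈ range c, (-1 : ℝ) ^ j = if Odd c then 1 else 0 := by
  rw [neg_one_geom_sum]
  by_cases h : Even c
  · rw [if_pos h, if_neg (Nat.not_odd_iff_even.2 h)]
  · rw [if_neg h, if_pos (Nat.not_even_iff_odd.1 h)]

theorem up_eval (k : ℕ) (x : Fin (k + k) → ℝ) : (upNet k).eval x = ipSign k x := by
  unfold Net.eval
  have hd : (upNet k).depth = 3 := rfl
  have hw : (upNet k).width 3 = k := by simp [upNet]
  have ha0 : (upNet k).a0 = 0 := rfl
  have ha : ∀ j, (upNet k).a j = (-1) ^ j := fun j => rfl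
  rw [hd, hw, ha0, zero_add]
  simp_rw [ha, up_three]
  set c := #{i : Fin k | 0 < x (Fin.castAdd k i) ∧ 0 < x (Fin.natAdd k i)} with hc
  have hck : c ≤ k := by
    have := Finset.card_le_univ (univ.filter fun i : Fin k =>
      0 < x (Fin.castAdd k i) ∧ 0 < x (Fin.natAdd k i))
    rwa [Fintype.card_fin] at this
  have h1 : ∑ j ∈ range k, (-1 : ℝ) ^ j * (if j < c then 1 else 0) = ∑ j ∈ range c, (-1 : ℝ) ^ j := by
    simp_rw [mul_ite, mul_one, mul_zero]
    rw [← Finset.sum_filter]
    congr 1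
    ext j
    rw [mem_filter, mem_range, mem_range]
    omega
  rw [h1, alt_sum]
  rfl

theorem up_size (k : ℕ) : (upNet k).size = 4 * k := by
  unfold Net.size
  have hd : (upNet k).depth = 3 := rfl
  have h1 : (upNet k).width 1 = k + k := by simp [upNet]
  have h2 : (upNet k).width 2 = k := by simp [upNet]
  have h3 : (upNet k).width 3 = k := by simp [upNet]
  rw [hd]
  have : Icc 1 3 = ({1, 2, 3} : Finset ℕ) := by decide
  rw [this]
  rw [Finset.sum_insert (by decide), Finset.sum_insert (by decide), Finset.sum_singleton, h1, h2, h3]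
  ring

theorem up_W (k i j l : ℕ) : (upNet k).W i j l = 0 ∨ (upNet k).W i j l = 1 := by
  simp only [upNet]
  split_ifs <;> simp

theorem up_a (k j : ℕ) : (upNet k).a j = 1 ∨ (upNet k).a j = -1 := by
  exact neg_one_pow_eq_or ℝ j

end Pool.Agent.MP_244be3_lc
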